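import Mathlib

/-!
# MP_64e98b_an (periodic De Gregorio model), local theory: definitions

Fourier side.  For `w(x) = Σ a_k e^{ikx}` and the mean zero primitive `u` of the Hilbert transform,
`u(x) = Σ u_k e^{ikx}`, `u_k = -a_k/|k|` (`k ≠ 0`), `u_0 = 0`, the `k`-th Fourier coefficient of
`w u_x - u w_x` is `NL a k = Σ_{j+l=k} ker j l a_j a_l`, `ker j l = -i (j-l)/|j|` (`= 0` if `j = 0`).

* `wt s k = (1+|k|)^s` (weights), `En s a = Σ (1+|k|)^(2s) |a_k|²` (energies)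
* `Herm a`: `a_{-k} = conj a_k` (real functions)
* `Rap a`: rapidly decreasing;  `URap S c`: rapidly decreasing uniformly in `t ∈ S`
* `FSol a α β`: `a : ℝ → ℤ → ℂ` solves `a_k' = NL a k` on `[α,β]`, hermitian, uniformly rapidly
  decreasing (Fourier form of a smooth solution)
* `FS c x = Σ c_k e^{ikx}`, `vel c` (velocity), `dx c` (derivative in `x`), `hil c` (Hilbert
  transform) on the Fourier side
* `DD m c`: `c` is `m` times differentiable in time, everything uniformly rapidly decreasing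
-/

set_option autoImplicit false
open Real Set

namespace Pool.Agent.H45.DGL

/-- weight `(1+|k|)^s` -/
noncomputable def wt (s : ℕ) (k : ℤ) : ℝ := (1 + |(k : ℝ)|) ^ s

/-- interaction kernel -/
noncomputable def ker (j l : ℤ) : ℂ := -Complex.I * ((j : ℂ) - (l : ℂ)) / ((|(j : ℝ)| : ℝ) : ℂ)

/-- bilinear form on sequences -/
noncomputable def BL (a b : ℤ → ℂ) (k : ℤ) : ℂ := ∑' j : ℤ, ker j (k - j) * (a j * b (k - j))

/-- the nonlinearity of the De Gregorio model on the Fourier side -/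
noncomputable def NL (a : ℤ → ℂ) (k : ℤ) : ℂ := BL a a k

/-- hermitian symmetry (the function is real) -/
def Herm (a : ℤ → ℂ) : Prop := ∀ k, a (-k) = (starRingEnd ℂ) (a k)

/-- rapidly decreasing -/
def Rap (a : ℤ → ℂ) : Prop := ∀ s : ℕ, ∃ C : ℝ, ∀ k, wt s k * ‖a k‖ ≤ C

/-- rapidly decreasing, uniformly in `t ∈ S` -/
def URap (S : Set ℝ) (c : ℝ → ℤ → ℂ) : Prop :=
  ∀ s : ℕ, ∃ C : ℝ, ∀ t ∈ S, ∀ k, wt s k * ‖c t k‖ ≤ C

/-- energies -/
noncomputable def En (s : ℕ) (a : ℤ → ℂ) : ℝ := ∑' k : ℤ, wt s k ^ 2 * ‖a k‖ ^ 2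

/-- Fourier form of a smooth solution on `[α,β]` -/
structure FSol (a : ℝ → ℤ → ℂ) (α β : ℝ) : Prop where
  herm : ∀ t ∈ Icc α β, Herm (a t)
  rap : URap (Icc α β) a
  der : ∀ t ∈ Icc α β, ∀ k, HasDerivWithinAt (fun r => a r k) (NL (a t) k) (Icc α β) t

/-- `e^{ikx}` -/
noncomputable def ex (k : ℤ) (x : ℝ) : ℂ := Complex.exp ((k : ℂ) * (x : ℂ) * Complex.I)

/-- Fourier series -/
noncomputable def FS (c : ℤ → ℂ) (x : ℝ) : ℂ := ∑' k : ℤ, c k * ex k x

/-- velocity on the Fourier side -/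
noncomputable def vel (c : ℤ → ℂ) (k : ℤ) : ℂ := -c k / ((|(k : ℝ)| : ℝ) : ℂ)

/-- derivative in `x` on the Fourier side -/
noncomputable def dx (c : ℤ → ℂ) (k : ℤ) : ℂ := (k : ℂ) * Complex.I * c k

/-- Hilbert transform on the Fourier side -/
noncomputable def hil (c : ℤ → ℂ) (k : ℤ) : ℂ := -Complex.I * ((Int.sign k : ℤ) : ℂ) * c k

/-- `c` is `m` times differentiable in time, all derivatives uniformly rapidly decreasing -/
def DD : ℕ → (ℝ → ℤ → ℂ) → Prop
  | 0, c => URap univ c ∧ ∀ k, Continuous fun t => c t k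
  | (m + 1), c => URap univ c ∧ ∃ c' : ℝ → ℤ → ℂ,
      (∀ t k, HasDerivAt (fun r => c r k) (c' t k) t) ∧ DD m c'

end Pool.Agent.H45.DGL
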