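import Mathlib

/-! JOB DL-08.  A smooth time reparametrisation.

PROOF.  `ρ`: `ContDiffBump` on `ℝ` centred at `(α+β)/2` with `rIn = (β-α)/2 + ε/4 > 0`,
`rOut = (β-α)/2 + ε/2`: `ρ = 1` on `[α,β]`, `0 ≤ ρ ≤ 1`, support in `[α-ε, β+ε]`.
`χ t = α + ∫_α^t ρ`.  On `[α,β]`: `χ t = t`.  For `t > β`: `β ≤ χ t ≤ β + ε`
(`∫_β^t ρ ≤ ∫_β^{β+ε} 1`), for `t < α`: `α - ε ≤ χ t ≤ α`. -/

set_option autoImplicit false
open Real Set

namespace Pool.Agent.H45.DGL

theorem Chi_bound {ρ : ℝ → ℝ} (hc : Continuous ρ) (h0 : ∀ t, 0 ≤ ρ t) (h1 : ∀ t, ρ t ≤ 1)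
    {a b e : ℝ} (hab : a ≤ b) (he : 0 ≤ e) (hz : (∀ t, a + e ≤ t → ρ t = 0) ∨ (∀ t, t ≤ b - e → ρ t = 0)) :
    0 ≤ ∫ t in a..b, ρ t ∧ ∫ t in a..b, ρ t ≤ e := by
  have hi : ∀ x y : ℝ, IntervalIntegrable ρ MeasureTheory.volume x y :=
    fun x y => hc.intervalIntegrable x y
  have hle : ∀ x y : ℝ, x ≤ y → ∫ t in x..y, ρ t ≤ y - x := by
    intro x y hxy
    have := intervalIntegral.integral_mono_on hxy (hi x y)
      (continuous_const.intervalIntegrable x y) (fun t _ => h1 t)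
    simpa using this
  have hzero : ∀ x y : ℝ, x ≤ y → (∀ t ∈ Icc x y, ρ t = 0) → ∫ t in x..y, ρ t = 0 := by
    intro x y hxy h
    rw [intervalIntegral.integral_congr (g := fun _ => (0 : ℝ))]
    · simp
    · intro t ht
      rw [uIcc_of_le hxy] at ht
      exact h t ht
  refine ⟨intervalIntegral.integral_nonneg hab fun t _ => h0 t, ?_⟩
  by_cases hbe : b ≤ a + e
  · exact (hle a b hab).trans (by linarith)
  · push Not at hbe
    rcases hz with hz | hz
    · rw [← intervalIntegral.integral_add_adjacent_intervals (hi a (a + e)) (hi (a + e) b),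
        hzero (a + e) b hbe.le (fun t ht => hz t ht.1), add_zero]
      exact (hle a (a + e) (by linarith)).trans (by linarith)
    · rw [← intervalIntegral.integral_add_adjacent_intervals (hi a (b - e)) (hi (b - e) b),
        hzero a (b - e) (by linarith) (fun t ht => hz t ht.2), zero_add]
      exact (hle (b - e) b (by linarith)).trans (by linarith)

theorem chi_exists (α β ε : ℝ) (h : α ≤ β) (hε : 0 < ε) :
    ∃ χ ρ : ℝ → ℝ, ContDiff ℝ ((⊤ : ℕ∞) : WithTop ℕ∞) ρ ∧ HasCompactSupport ρ ∧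
      (∀ t, HasDerivAt χ (ρ t) t) ∧ (∀ t ∈ Icc α β, ρ t = 1 ∧ χ t = t) ∧
      (∀ t, χ t ∈ Icc (α - ε) (β + ε)) := by
  let f : ContDiffBump ((α + β) / 2) :=
    ⟨(β - α) / 2 + ε / 4, (β - α) / 2 + ε / 2, by linarith, by linarith⟩
  have hc : Continuous f := f.continuous
  have h0 : ∀ t, 0 ≤ f t := fun t => f.nonneg
  have h1 : ∀ t, f t ≤ 1 := fun t => f.le_one
  have hone : ∀ t ∈ Icc α β, f t = 1 := by
    intro t ht
    apply f.one_of_mem_closedBall
    rw [Metric.mem_closedBall, Real.dist_eq, abs_le]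
    show -((β - α) / 2 + ε / 4) ≤ t - (α + β) / 2 ∧ t - (α + β) / 2 ≤ (β - α) / 2 + ε / 4
    constructor <;> linarith [ht.1, ht.2]
  have hz1 : ∀ t, β + ε ≤ t → f t = 0 := by
    intro t ht
    apply f.zero_of_le_dist
    rw [Real.dist_eq]
    show (β - α) / 2 + ε / 2 ≤ |t - (α + β) / 2|
    exact le_trans (by linarith) (le_abs_self _)
  have hz2 : ∀ t, t ≤ α - ε → f t = 0 := by
    intro t ht
    apply f.zero_of_le_dist
    rw [Real.dist_eq]
    show (β - α) / 2 + ε / 2 ≤ |t - (α + β) / 2|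
    exact le_trans (by linarith) (neg_le_abs _)
  have hi : ∀ x y : ℝ, IntervalIntegrable f MeasureTheory.volume x y :=
    fun x y => hc.intervalIntegrable x y
  have hmid : ∀ t ∈ Icc α β, α + ∫ s in α..t, f s = t := by
    intro t ht
    rw [intervalIntegral.integral_congr (g := fun _ => (1 : ℝ))]
    · simp
    · intro s hs
      rw [uIcc_of_le ht.1] at hs
      exact hone s ⟨hs.1, hs.2.trans ht.2⟩
  refine ⟨fun t => α + ∫ s in α..t, f s, f, f.contDiff, f.hasCompactSupport, ?_, ?_, ?_⟩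
  · intro t
    exact (hc.integral_hasStrictDerivAt α t).hasDerivAt.const_add α
  · intro t ht
    exact ⟨hone t ht, hmid t ht⟩
  · intro t
    show α + ∫ s in α..t, f s ∈ Icc (α - ε) (β + ε)
    rcases le_total t α with hta | hta
    · have hb := Chi_bound hc h0 h1 hta hε.le (Or.inr hz2)
      rw [intervalIntegral.integral_symm]
      constructor <;> linarith [hb.1, hb.2]
    · rcases le_total t β with htb | htb
      · rw [hmid t ⟨hta, htb⟩]
        constructor <;> linarith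
      · have hb := Chi_bound hc h0 h1 htb hε.le (Or.inl hz1)
        rw [← intervalIntegral.integral_add_adjacent_intervals (hi α β) (hi β t), ← add_assoc,
          hmid β ⟨h, le_refl β⟩]
        constructor <;> linarith [hb.1, hb.2]

end Pool.Agent.H45.DGL
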