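import Pool.Agent.H45.DGL.FourierInt

/-! JOB DL-14.  Fourier coefficients of a smooth periodic function.

PROOF.  `a k = (1/2π) ∫_0^{2π} f x * ex (-k) x dx`.
* hermitian: conjugate the integral (`intervalIntegral` and `conj` commute:
  `intervalIntegral.integral_conj`? or `integral_conj`).
* decay: integration by parts (`intervalIntegral.integral_mul_deriv_eq_deriv_mul`, periodic
  boundary terms cancel): `a_k(f') = i k a_k(f)`; iterating, `|k|^s |a_k(f)| = |a_k(f^(s))|
  ≤ sup_{[0,2π]} |f^(s)|` (`iteratedDeriv s f` is smooth and periodic); and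
  `wt s k = (1+|k|)^s ≤ 2^s (1 + |k|^s)` (`pow_sum_le`).
* inversion: the 2π-periodic continuous function `g x = f x - Re (FS a x)` has all Fourier
  coefficients `0` (`int_FS`), hence vanishes; or directly Mathlib:
  `has_pointwise_sum_fourier_series_of_summable` for the lift of `f` to `AddCircle (2π)`
  (`Function.Periodic.lift`, `fourierCoeff_eq_intervalIntegral`, `fourier_coe_apply`). -/

set_option autoImplicit false
open Real Set MeasureTheory

namespace Pool.Agent.H45.DGL

/-- Fourier coefficient -/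
noncomputable def dfcf (g : ℝ → ℂ) (k : ℤ) : ℂ :=
  (1 / (2 * (π : ℂ))) * ∫ x in (0:ℝ)..(2 * π), ex (-k) x * g x

lemma df_ex_norm (k : ℤ) (x : ℝ) : ‖ex k x‖ = 1 := by
  unfold ex
  have : (k : ℂ) * (x : ℂ) * Complex.I = (((k : ℝ) * x : ℝ) : ℂ) * Complex.I := by push_cast; ring
  rw [this, Complex.norm_exp_ofReal_mul_I]

lemma df_ex_deriv (k : ℤ) (x : ℝ) : HasDerivAt (ex k) ((k : ℂ) * Complex.I * ex k x) x := by
  unfold ex
  have h1 : HasDerivAt (fun x : ℝ => (k : ℂ) * (x : ℂ) * Complex.I) ((k : ℂ) * Complex.I) x := by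
    have := ((Complex.ofRealCLM.hasDerivAt (x := x)).const_mul (k : ℂ)).mul_const Complex.I
    simpa using this
  have := h1.cexp
  rw [mul_comm]
  exact this

lemma df_ex_cont (k : ℤ) : Continuous (ex k) := by
  unfold ex; fun_prop

lemma df_ex_zero (k : ℤ) : ex k 0 = 1 := by simp [ex]

lemma df_ex_two_pi (k : ℤ) : ex k (2 * π) = 1 := by
  have := ex_per k 0
  rw [zero_add] at this
  rw [this, df_ex_zero]

lemma df_parts (F F' : ℝ → ℂ) (hF : ∀ x, HasDerivAt F (F' x) x) (hc : Continuous F')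
    (hp : F (2 * π) = F 0) (k : ℤ) : dfcf F' k = (k : ℂ) * Complex.I * dfcf F k := by
  have hFc : Continuous F := continuous_iff_continuousAt.2 fun x => (hF x).continuousAt
  have h1 : ∀ x ∈ uIcc (0:ℝ) (2 * π), HasDerivAt (fun x => ex (-k) x * F x)
      ((((-k : ℤ) : ℂ) * Complex.I * ex (-k) x) * F x + ex (-k) x * F' x) x := by
    intro x _
    exact (df_ex_deriv (-k) x).mul (hF x)
  have hcont : Continuous fun x => (((-k : ℤ) : ℂ) * Complex.I * ex (-k) x) * F x + ex (-k) x * F' x := by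
    have := df_ex_cont (-k)
    fun_prop
  have h2 := intervalIntegral.integral_eq_sub_of_hasDerivAt h1 (hcont.intervalIntegrable _ _)
  have h3 : ex (-k) (2 * π) * F (2 * π) - ex (-k) 0 * F 0 = 0 := by
    rw [df_ex_two_pi, df_ex_zero, hp]; ring
  rw [h3] at h2
  have hi1 : IntervalIntegrable (fun x => (((-k : ℤ) : ℂ) * Complex.I * ex (-k) x) * F x) volume 0 (2 * π) := by
    apply Continuous.intervalIntegrable
    have := df_ex_cont (-k)
    fun_prop
  have hi2 : IntervalIntegrable (fun x => ex (-k) x * F' x) volume 0 (2 * π) := by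
    apply Continuous.intervalIntegrable
    have := df_ex_cont (-k)
    fun_prop
  rw [intervalIntegral.integral_add hi1 hi2] at h2
  have h4 : ∫ x in (0:ℝ)..(2 * π), (((-k : ℤ) : ℂ) * Complex.I * ex (-k) x) * F x
      = -((k : ℂ) * Complex.I) * ∫ x in (0:ℝ)..(2 * π), ex (-k) x * F x := by
    rw [← intervalIntegral.integral_const_mul]
    congr 1
    ext x
    push_cast
    ring
  rw [h4] at h2
  unfold dfcf
  have h5 : ∫ x in (0:ℝ)..(2 * π), ex (-k) x * F' x
      = (k : ℂ) * Complex.I * ∫ x in (0:ℝ)..(2 * π), ex (-k) x * F x := by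
    linear_combination h2
  rw [h5]; ring

lemma df_bound (g : ℝ → ℂ) (C : ℝ) (hg : ∀ x ∈ Icc (0:ℝ) (2 * π), ‖g x‖ ≤ C) (k : ℤ) :
    ‖dfcf g k‖ ≤ C := by
  unfold dfcf
  have hpi := Real.pi_pos
  have h1 : ‖∫ x in (0:ℝ)..(2 * π), ex (-k) x * g x‖ ≤ C * |2 * π - 0| := by
    apply intervalIntegral.norm_integral_le_of_norm_le_const
    intro x hx
    rw [uIoc_of_le (by positivity)] at hx
    rw [norm_mul, df_ex_norm, one_mul]
    exact hg x ⟨hx.1.le, hx.2⟩
  rw [norm_mul]
  have h2 : ‖(1 / (2 * (π : ℂ)))‖ = 1 / (2 * π) := by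
    have : (1 / (2 * (π : ℂ))) = ((1 / (2 * π) : ℝ) : ℂ) := by push_cast; ring
    rw [this, Complex.norm_real, Real.norm_eq_abs, abs_of_pos (by positivity)]
  rw [h2]
  rw [sub_zero, abs_of_pos (by positivity)] at h1
  calc 1 / (2 * π) * ‖∫ x in (0:ℝ)..(2 * π), ex (-k) x * g x‖ ≤ 1 / (2 * π) * (C * (2 * π)) := by
        apply mul_le_mul_of_nonneg_left h1; positivity
    _ = C := by field_simp

lemma df_iter (F : ℝ → ℂ) (hF : ContDiff ℝ ((⊤ : ℕ∞) : WithTop ℕ∞) F)
    (hp : Function.Periodic F (2 * π)) (s : ℕ) (k : ℤ) :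
    dfcf (iteratedDeriv s F) k = ((k : ℂ) * Complex.I) ^ s * dfcf F k := by
  induction s with
  | zero => simp
  | succ s ih =>
    have hd : ContDiff ℝ ((⊤ : ℕ∞) : WithTop ℕ∞) (iteratedDeriv s F) := by
      rw [iteratedDeriv_eq_iterate]; exact ContDiff.iterate_deriv s hF
    have hper : ∀ s : ℕ, Function.Periodic (iteratedDeriv s F) (2 * π) := by
      intro s
      induction s with
      | zero => simpa using hp
      | succ s ihs =>
        rw [iteratedDeriv_succ]
        intro x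
        have : (fun y => iteratedDeriv s F (y + 2 * π)) = iteratedDeriv s F := funext ihs
        rw [← deriv_comp_add_const, this]
    rw [iteratedDeriv_succ]
    rw [df_parts (iteratedDeriv s F) (deriv (iteratedDeriv s F))]
    · rw [ih]; ring
    · intro x
      exact ((hd.differentiable (by simp)) x).hasDerivAt
    · exact hd.continuous_deriv (by simp)
    · have := hper s 0
      rw [zero_add] at this
      exact this

lemma df_rap (F : ℝ → ℂ) (hF : ContDiff ℝ ((⊤ : ℕ∞) : WithTop ℕ∞) F)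
    (hp : Function.Periodic F (2 * π)) : Rap (dfcf F) := by
  intro s
  have hb : ∀ s : ℕ, ∃ C, ∀ k : ℤ, |(k : ℝ)| ^ s * ‖dfcf F k‖ ≤ C := by
    intro s
    have hd : ContDiff ℝ ((⊤ : ℕ∞) : WithTop ℕ∞) (iteratedDeriv s F) := by
      rw [iteratedDeriv_eq_iterate]; exact ContDiff.iterate_deriv s hF
    obtain ⟨C, hC⟩ := (isCompact_Icc (a := (0:ℝ)) (b := 2 * π)).exists_bound_of_continuousOn
      hd.continuous.continuousOn
    refine ⟨C, fun k => ?_⟩
    have h1 := df_bound (iteratedDeriv s F) C hC k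
    rw [df_iter F hF hp, norm_mul, norm_pow, norm_mul, Complex.norm_I, mul_one,
      Complex.norm_intCast] at h1
    exact h1
  obtain ⟨C0, h0⟩ := hb 0
  obtain ⟨C1, h1⟩ := hb s
  refine ⟨2 ^ (s - 1) * (C0 + C1), fun k => ?_⟩
  unfold wt
  have h2 := add_pow_le (zero_le_one) (abs_nonneg (k : ℝ)) s
  have h0' := h0 k
  have h1' := h1 k
  calc (1 + |(k : ℝ)|) ^ s * ‖dfcf F k‖
      ≤ (2 ^ (s - 1) * (1 ^ s + |(k : ℝ)| ^ s)) * ‖dfcf F k‖ :=
        mul_le_mul_of_nonneg_right h2 (norm_nonneg _)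
    _ = 2 ^ (s - 1) * (|(k : ℝ)| ^ 0 * ‖dfcf F k‖ + |(k : ℝ)| ^ s * ‖dfcf F k‖) := by
        rw [one_pow, pow_zero]; ring
    _ ≤ 2 ^ (s - 1) * (C0 + C1) := by
        apply mul_le_mul_of_nonneg_left (add_le_add h0' h1'); positivity

lemma df_inv (F : ℝ → ℂ) (hF : Continuous F) (hp : Function.Periodic F (2 * π))
    (hs : Summable (dfcf F)) (x : ℝ) : F x = FS (dfcf F) x := by
  have hpos : (0:ℝ) < 2 * π := by positivity
  let hT : Fact (0 < 2 * π) := ⟨hpos⟩
  let G : C(AddCircle (2 * π), ℂ) := ⟨hp.lift, by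
    apply Continuous.quotient_liftOn'
    exact hF⟩
  have hG : ∀ y : ℝ, G (y : AddCircle (2 * π)) = F y := fun y => rfl
  have hf : ∀ (n : ℤ) (y : ℝ), fourier n (y : AddCircle (2 * π)) = ex n y := by
    intro n y
    rw [fourier_coe_apply]
    unfold ex
    congr 1
    have : (π : ℂ) ≠ 0 := by exact_mod_cast Real.pi_ne_zero
    push_cast
    field_simp
  have hc : ∀ n, fourierCoeff G n = dfcf F n := by
    intro n
    rw [fourierCoeff_eq_intervalIntegral _ _ 0]
    unfold dfcf
    rw [zero_add]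
    have : ∀ y : ℝ, (fourier (-n) (y : AddCircle (2 * π)) • G (y : AddCircle (2 * π)) : ℂ) = ex (-n) y * F y := by
      intro y
      rw [hf, hG, smul_eq_mul]
    simp only [this]
    rw [Complex.real_smul]
    push_cast
    rfl
  have hsum : Summable (fourierCoeff G) := by
    have : (fourierCoeff G) = dfcf F := funext hc
    rw [this]; exact hs
  have h := has_pointwise_sum_fourier_series_of_summable hsum (x : AddCircle (2 * π))
  have h2 := h.tsum_eq
  rw [hG] at h2
  rw [← h2]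
  unfold FS
  congr 1
  ext n
  rw [hc, hf, smul_eq_mul]

theorem fourier_data (f : ℝ → ℝ) (hf : ContDiff ℝ ((⊤ : ℕ∞) : WithTop ℕ∞) f)
    (hp : Function.Periodic f (2 * π)) :
    ∃ a : ℤ → ℂ, Herm a ∧ Rap a ∧ ∀ x : ℝ, ((f x : ℝ) : ℂ) = FS a x := by
  have hF : ContDiff ℝ ((⊤ : ℕ∞) : WithTop ℕ∞) (fun x => ((f x : ℝ) : ℂ)) :=
    Complex.ofRealCLM.contDiff.comp hf
  have hpF : Function.Periodic (fun x => ((f x : ℝ) : ℂ)) (2 * π) := by
    intro x
    show ((f (x + 2 * π) : ℝ) : ℂ) = _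
    rw [hp x]
  have hr := df_rap _ hF hpF
  refine ⟨dfcf (fun x => ((f x : ℝ) : ℂ)), ?_, hr, ?_⟩
  · intro k
    unfold dfcf
    rw [map_mul, ← intervalIntegral.intervalIntegral_conj]
    congr 1
    · rw [map_div₀, map_mul, Complex.conj_ofReal, map_one]
      congr 2
      exact (Complex.conj_ofNat 2).symm
    · congr 1
      ext x
      rw [map_mul, Complex.conj_ofReal]
      congr 1
      unfold ex
      rw [← Complex.exp_conj]
      congr 1
      rw [map_mul, map_mul, Complex.conj_I, Complex.conj_ofReal]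
      push_cast
      simp
  · intro x
    exact df_inv _ hF.continuous hpF (summable_of_Rap _ hr).of_norm x

end Pool.Agent.H45.DGL
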