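import Pool.Agent.H45.DGL.NLbounds

/-! JOB DL-03 (uses the stub `NL_neg`).  Elementary operations on Fourier-mild solutions.

* `FSol.mono`: restrict all fields (`HasDerivWithinAt.mono`).
* `FSol.shift`: `b t = a (t - c)` on `[α+c, β+c]`: `HasDerivWithinAt.scomp`/`comp` with `r ↦ r - c`
  (or `HasDerivWithinAt.comp_sub_const`-type lemmas; image of `Icc (α+c) (β+c)` is `Icc α β`).
* `FSol.reverse`: `b t = -a (-t)` on `[-β, -α]`; derivative `-(-(NL (a (-t)) k)) = NL (a (-t)) k
  = NL (b t) k` (`NL_neg`); `Herm`, `URap` clear.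
* `FSol.glue`: `c t = if t ≤ β then a t else b t`; at `t < β`: the derivative of `a` within
  `Icc α β`, and `Icc α γ` agrees with `Icc α β` near `t`; at `t > β` the same with `b`; at
  `t = β`: `HasDerivWithinAt.union` of the derivatives within `Icc α β` and within `Icc β γ`
  (`a β = b β` gives the congruences and the same derivative value). -/

set_option autoImplicit false
open Real Set

namespace Pool.Agent.H45.DGL

lemma FSol.mono {a : ℝ → ℤ → ℂ} {α β α' β' : ℝ} (h : FSol a α β) (h1 : α ≤ α') (h2 : β' ≤ β) :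
    FSol a α' β' := by
  have hsub : Icc α' β' ⊆ Icc α β := Icc_subset_Icc h1 h2
  refine ⟨fun t ht => h.herm t (hsub ht), ?_, fun t ht k => (h.der t (hsub ht) k).mono hsub⟩
  intro s
  obtain ⟨C, hC⟩ := h.rap s
  exact ⟨C, fun t ht k => hC t (hsub ht) k⟩

lemma FSol.shift {a : ℝ → ℤ → ℂ} {α β : ℝ} (h : FSol a α β) (c : ℝ) :
    FSol (fun t => a (t - c)) (α + c) (β + c) := by
  have hmem : ∀ t, t ∈ Icc (α + c) (β + c) → t - c ∈ Icc α β := fun t ht =>
    ⟨by linarith [ht.1], by linarith [ht.2]⟩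
  refine ⟨fun t ht => h.herm _ (hmem t ht), ?_, ?_⟩
  · intro s
    obtain ⟨C, hC⟩ := h.rap s
    exact ⟨C, fun t ht k => hC _ (hmem t ht) k⟩
  · intro t ht k
    have h1 := h.der (t - c) (hmem t ht) k
    have h2 : HasDerivWithinAt (fun r : ℝ => r - c) 1 (Icc (α + c) (β + c)) t :=
      ((hasDerivAt_id t).sub_const c).hasDerivWithinAt
    have h3 := HasDerivWithinAt.scomp t h1 h2 hmem
    rw [one_smul] at h3
    exact h3

lemma FSol.reverse {a : ℝ → ℤ → ℂ} {α β : ℝ} (h : FSol a α β) :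
    FSol (fun t k => -a (-t) k) (-β) (-α) := by
  have hmem : ∀ t, t ∈ Icc (-β) (-α) → -t ∈ Icc α β := fun t ht =>
    ⟨by linarith [ht.2], by linarith [ht.1]⟩
  refine ⟨?_, ?_, ?_⟩
  · intro t ht k
    have h1 := h.herm _ (hmem t ht) k
    show -a (-t) (-k) = (starRingEnd ℂ) (-a (-t) k)
    rw [h1, map_neg]
  · intro s
    obtain ⟨C, hC⟩ := h.rap s
    refine ⟨C, fun t ht k => ?_⟩
    rw [norm_neg]
    exact hC _ (hmem t ht) k
  · intro t ht k
    have h1 := h.der (-t) (hmem t ht) k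
    have h2 : HasDerivWithinAt (fun r : ℝ => -r) (-1) (Icc (-β) (-α)) t :=
      (hasDerivAt_neg t).hasDerivWithinAt
    have h3 := (HasDerivWithinAt.scomp t h1 h2 hmem).neg
    rw [NL_neg]
    have h4 : -((-1 : ℝ) • NL (a (-t)) k) = NL (a (-t)) k := by simp
    rw [h4] at h3
    exact h3

lemma FSol.glue {a b : ℝ → ℤ → ℂ} {α β γ : ℝ} (ha : FSol a α β) (hb : FSol b β γ)
    (h1 : α ≤ β) (h2 : β ≤ γ) (hab : a β = b β) :
    FSol (fun t => if t ≤ β then a t else b t) α γ := by
  set c : ℝ → ℤ → ℂ := fun t => if t ≤ β then a t else b t with hc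
  have hca : ∀ t, t ∈ Icc α β → c t = a t := fun t ht => by
    simp only [hc, if_pos ht.2]
  have hcb : ∀ t, t ∈ Icc β γ → c t = b t := by
    intro t ht
    rcases eq_or_lt_of_le ht.1 with h | h
    · subst h
      simp only [hc, if_pos le_rfl]
      exact hab
    · simp only [hc, if_neg (not_le.2 h)]
  have hU : Icc α γ = Icc α β ∪ Icc β γ := (Icc_union_Icc_eq_Icc h1 h2).symm
  have hda : ∀ t ∈ Icc α β, ∀ k, HasDerivWithinAt (fun r => c r k) (NL (c t) k) (Icc α β) t := by
    intro t ht k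
    have h3 := ha.der t ht k
    rw [← hca t ht] at h3
    refine h3.congr (fun y hy => ?_) ?_
    · show c y k = a y k
      rw [hca y hy]
    · show c t k = a t k
      rw [hca t ht]
  have hdb : ∀ t ∈ Icc β γ, ∀ k, HasDerivWithinAt (fun r => c r k) (NL (c t) k) (Icc β γ) t := by
    intro t ht k
    have h3 := hb.der t ht k
    rw [← hcb t ht] at h3
    refine h3.congr (fun y hy => ?_) ?_
    · show c y k = b y k
      rw [hcb y hy]
    · show c t k = b t k
      rw [hcb t ht]
  refine ⟨?_, ?_, ?_⟩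
  · intro t ht
    rw [hU] at ht
    rcases ht with ht | ht
    · rw [hca t ht]; exact ha.herm t ht
    · rw [hcb t ht]; exact hb.herm t ht
  · intro s
    obtain ⟨C, hC⟩ := ha.rap s
    obtain ⟨D, hD⟩ := hb.rap s
    refine ⟨max C D, fun t ht k => ?_⟩
    rw [hU] at ht
    rcases ht with ht | ht
    · rw [hca t ht]; exact (hC t ht k).trans (le_max_left _ _)
    · rw [hcb t ht]; exact (hD t ht k).trans (le_max_right _ _)
  · intro t ht k
    rcases lt_trichotomy t β with h | h | h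
    · have h3 := hda t ⟨ht.1, h.le⟩ k
      refine h3.mono_of_mem_nhdsWithin ?_
      have h4 : Iio β ∈ nhds t := Iio_mem_nhds h
      refine Filter.mem_of_superset (inter_mem_nhdsWithin (Icc α γ) h4) ?_
      intro y hy
      exact ⟨hy.1.1, le_of_lt hy.2⟩
    · subst h
      rw [hU]
      exact (hda t ⟨h1, le_rfl⟩ k).union (hdb t ⟨le_rfl, h2⟩ k)
    · have h3 := hdb t ⟨h.le, ht.2⟩ k
      refine h3.mono_of_mem_nhdsWithin ?_
      have h4 : Ioi β ∈ nhds t := Ioi_mem_nhds h
      refine Filter.mem_of_superset (inter_mem_nhdsWithin (Icc α γ) h4) ?_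
      intro y hy
      exact ⟨le_of_lt hy.2, hy.1.2⟩

end Pool.Agent.H45.DGL
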