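import Pool.Agent.H45.DGL.ToSol

/-! JOB DL-17 (uses the stubs `FSol.extend`, `W_contDiff`, `pde_at`, `int_FS`, `dx_vel`, ...).
From a Fourier-mild solution on `[α,β]`, `α < 0 < T < β`, to the format of the frozen statement.

PROOF.  `c` from `FSol.extend` with `α' = 0`, `β' = T`; `ω = W c`, `u = V c` on all of `ℝ × ℝ`.
Smooth by `W_contDiff`, periodic by `FS_per`; `W c (0,x) = (FS (a 0) x).re`; PDE by `pde_at`.
Fourier relation, for every `t` and `k`: `((deriv (V c (t,·)) x : ℝ) : ℂ) = FS (hil (c t)) x`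
(`deriv_re_FS`, `FS_herm`, `dx_vel`), `Complex.exp (-(k:ℂ) * x * I) = ex (-k) x`,
`int_FS` on both sides: `2π hil (c t) k = -I sign k * (2π c t k)`. -/

set_option autoImplicit false
open Real Set MeasureTheory

namespace Pool.Agent.H45.DGL

theorem FSol.toFrozen {a : ℝ → ℤ → ℂ} {α β : ℝ} (h : FSol a α β) (T : ℝ) (hα : α < 0)
    (hT : 0 < T) (hβ : T < β) :
    ∃ ω u : ℝ × ℝ → ℝ,
      ContDiff ℝ ((⊤ : ℕ∞) : WithTop ℕ∞) ω ∧
      ContDiff ℝ ((⊤ : ℕ∞) : WithTop ℕ∞) u ∧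
      (∀ t x : ℝ, ω (t, x + 2 * π) = ω (t, x)) ∧
      (∀ t x : ℝ, u (t, x + 2 * π) = u (t, x)) ∧
      (∀ x : ℝ, ω (0, x) = (FS (a 0) x).re) ∧
      (∀ t ∈ Set.Icc (0 : ℝ) T, ∀ k : ℤ,
        (∫ x in (0 : ℝ)..(2 * π),
            ((deriv (fun y : ℝ => u (t, y)) x : ℝ) : ℂ) *
              Complex.exp (-(k : ℂ) * (x : ℂ) * Complex.I)) =
          -Complex.I * ((Int.sign k : ℤ) : ℂ) *
            ∫ x in (0 : ℝ)..(2 * π),
              ((ω (t, x) : ℝ) : ℂ) * Complex.exp (-(k : ℂ) * (x : ℂ) * Complex.I)) ∧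
      (∀ t ∈ Set.Icc (0 : ℝ) T, ∀ x : ℝ,
        deriv (fun s : ℝ => ω (s, x)) t + u (t, x) * deriv (fun y : ℝ => ω (t, y)) x =
          ω (t, x) * deriv (fun y : ℝ => u (t, y)) x) := by
  obtain ⟨c, hDD, hH, hca, c', hc', hder, hNL⟩ := h.extend 0 T hα hT.le hβ
  have hR : ∀ t, Rap (c t) := by
    intro t s
    obtain ⟨C, hC⟩ := (hDD 0).urap s
    exact ⟨C, fun k => hC t (mem_univ t) k⟩
  obtain ⟨hW, hV⟩ := W_contDiff c hDD
  refine ⟨W c, V c, hW, hV, ?_, ?_, ?_, ?_, ?_⟩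
  · intro t x
    unfold W
    simp only [FS_per]
  · intro t x
    unfold V
    simp only [FS_per]
  · intro x
    show (FS (c 0) x).re = _
    rw [hca 0 ⟨le_rfl, hT.le⟩]
  · intro t _ k
    have e0 : ∀ x : ℝ, Complex.exp (-(k : ℂ) * (x : ℂ) * Complex.I) = ex (-k) x := by
      intro x
      unfold ex
      push_cast
      rfl
    have e1 : ∀ x : ℝ, ((deriv (fun y : ℝ => V c (t, y)) x : ℝ) : ℂ) = FS (hil (c t)) x := by
      intro x
      have h1 : deriv (fun y : ℝ => V c (t, y)) x = (FS (dx (vel (c t))) x).re :=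
        (deriv_re_FS (vel (c t)) (Rap_vel _ (hR t)) x).deriv
      rw [h1, FS_herm _ (Herm_dx _ (Herm_vel _ (hH t))), dx_vel]
    have e2 : ∀ x : ℝ, ((W c (t, x) : ℝ) : ℂ) = FS (c t) x := fun x => FS_herm _ (hH t) x
    have hil_rap : Rap (hil (c t)) := by
      rw [← dx_vel]
      exact Rap_dx _ (Rap_vel _ (hR t))
    simp only [e0, e1, e2]
    rw [int_FS _ hil_rap k, int_FS _ (hR t) k]
    unfold hil
    ring
  · intro t ht x
    exact pde_at c c' (hDD 0).urap hH hc' hder t (fun k => hNL t ht k) x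

end Pool.Agent.H45.DGL
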