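import Pool.Agent.H45.DGL.LocalExist
import Pool.Agent.H45.DGL.Glue
import Pool.Agent.H45.DGL.Data
import Pool.Agent.H45.DGL.ToFrozen

/-! JOB DL-18 (assembly; uses the stubs of all files).  Continuation with an a priori bound.

PROOF of `steps`.  `B` such that `H1 (w t) ≤ B` for all `Sol a b w u`, `a < 0 < b ≤ T + 1`,
`w(0,·) = w0`, `t ∈ [0,b)` (that is `APriori w0 (T+1)`).  `R = En 1 a0 + (1/π) |B| + 1 > 0`,
`τ = min τ_R 1` (`τ_R` from `local_exist`).  Claim for all `n : ℕ`, with `t_n = min (n τ/2) T`: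
there is `a` with `a 0 = a0` and `FSol a (-τ) (t_n + τ/2)`.
`n = 0`: `local_exist` for `a0` (restricted to `[0,τ]`) and for `-a0`, reversed (`FSol.reverse`:
`t ↦ -b (-t)`, value `a0` at `0`) give `FSol` on `[-τ,0]` and `[0,τ]`; `FSol.glue`, `FSol.mono`.
`n → n+1`: `t_n + τ/2 ≤ T + 1`, `t_n ∈ [0, t_n + τ/2)`, so by `FSol.toSol` and the a priori bound
`H1 (W a (t_n,·)) ≤ B`, and `En_le_H1` gives `En 1 (a t_n) ≤ (1/π) B ≤ R` (`W a (0,x) =
(FS a0 x).re = w0 x`).  `local_exist` for `a t_n`, shifted to `[t_n, t_n + τ]` (`FSol.shift`), glued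
to the restriction of `a` to `[-τ, t_n]`; `t_(n+1) + τ/2 ≤ t_n + τ`.
For `n ≥ 2T/τ` we have `t_n = T`. -/

set_option autoImplicit false
open Real Set MeasureTheory

namespace Pool.Agent.H45.DGL

lemma En_neg (s : ℕ) (a : ℤ → ℂ) : En s (fun k => -a k) = En s a := by
  unfold En; simp

lemma URap.at {S : Set ℝ} {c : ℝ → ℤ → ℂ} (h : URap S c) {t : ℝ} (ht : t ∈ S) : Rap (c t) := by
  intro s
  obtain ⟨C, hC⟩ := h s
  exact ⟨C, fun k => hC t ht k⟩

theorem steps (a0 : ℤ → ℂ) (hh : Herm a0) (hr : Rap a0) (T : ℝ) (hT : 0 < T) (B : ℝ)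
    (hB : ∀ (a b : ℝ) (w u : ℝ × ℝ → ℝ), a < 0 → 0 < b → b ≤ T + 1 →
      Pool.Agent.H51.DG.Sol a b w u → (∀ x : ℝ, w (0, x) = (FS a0 x).re) →
      ∀ t ∈ Ico (0:ℝ) b, Pool.Agent.H51.DG.H1 (fun x => w (t, x)) ≤ B) :
    ∃ (a : ℝ → ℤ → ℂ) (α β : ℝ), α < 0 ∧ T < β ∧ a 0 = a0 ∧ FSol a α β := by
  have hE0 : 0 ≤ En 1 a0 := tsum_nonneg fun _ => by positivity
  set R : ℝ := En 1 a0 + (1 / π) * |B| + 1 with hR
  have hRpos : 0 < R := by
    have : 0 ≤ (1 / π) * |B| := by positivity
    linarith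
  obtain ⟨τ0, hτ0, hloc⟩ := local_exist R hRpos
  set τ : ℝ := min τ0 1 with hτdef
  have hτ : 0 < τ := lt_min hτ0 one_pos
  have hτ1 : τ ≤ 1 := min_le_right _ _
  have hττ0 : τ ≤ τ0 := min_le_left _ _
  have key : ∀ n : ℕ, ∃ a : ℝ → ℤ → ℂ, a 0 = a0 ∧
      FSol a (-τ) (min (n * (τ / 2)) T + τ / 2) := by
    intro n
    induction n with
    | zero =>
      obtain ⟨a, ha0, ha⟩ := hloc a0 hh hr (by
        have : 0 ≤ (1 / π) * |B| := by positivity
        linarith)
      have hh' : Herm fun k => -a0 k := by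
        intro k
        simp [hh k]
      have hr' : Rap fun k => -a0 k := by
        intro s
        obtain ⟨C, hC⟩ := hr s
        exact ⟨C, fun k => by simpa using hC k⟩
      obtain ⟨b, hb0, hb⟩ := hloc (fun k => -a0 k) hh' hr' (by
        rw [En_neg]
        have : 0 ≤ (1 / π) * |B| := by positivity
        linarith)
      have hb2 : FSol (fun t k => -b (-t) k) (-τ) 0 := by
        have h1 := (hb.mono (le_refl 0) hττ0).reverse
        simpa using h1
      have h2 : (fun t k => -b (-t) k) 0 = a 0 := by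
        funext k
        simp [hb0, ha0]
      have h3 := hb2.glue (ha.mono (le_refl 0) hττ0) (by linarith) hτ.le h2
      refine ⟨_, ?_, h3.mono le_rfl ?_⟩
      · funext k
        simp [hb0]
      · have : min (((0 : ℕ) : ℝ) * (τ / 2)) T = 0 := by
          simp [hT.le]
        rw [this]; linarith
    | succ n ih =>
      obtain ⟨a, ha0, ha⟩ := ih
      set s : ℝ := min (n * (τ / 2)) T with hs
      have hs0 : 0 ≤ s := le_min (by positivity) hT.le
      have hsT : s ≤ T := min_le_right _ _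
      have hmem : s ∈ Icc (-τ) (s + τ / 2) := ⟨by linarith, by linarith⟩
      have hH := hB (-τ) (s + τ / 2) (W a) (V a) (by linarith) (by linarith) (by linarith)
        ha.toSol (fun x => by simp [W, ha0]) s ⟨hs0, by linarith⟩
      have hrap : Rap (a s) := ha.rap.at hmem
      have hherm : Herm (a s) := ha.herm s hmem
      have hE : En 1 (a s) ≤ R := by
        refine (En_le_H1 (a s) hrap hherm).trans ?_
        have h1 : Pool.Agent.H51.DG.H1 (fun x => (FS (a s) x).re) ≤ B := hH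
        have h2 : (1 / π) * Pool.Agent.H51.DG.H1 (fun x => (FS (a s) x).re) ≤ (1 / π) * |B| := by
          have : 0 ≤ 1 / π := by positivity
          exact mul_le_mul_of_nonneg_left (h1.trans (le_abs_self B)) this
        linarith
      obtain ⟨b, hb0, hb⟩ := hloc (a s) hherm hrap hE
      have hb2 : FSol (fun t => b (t - s)) s (s + τ) := by
        have h1 := (hb.mono (le_refl 0) hττ0).shift s
        have e1 : 0 + s = s := by ring
        have e2 : τ + s = s + τ := by ring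
        rwa [e1, e2] at h1
      have h2 : a s = (fun t => b (t - s)) s := by
        simp [hb0]
      have h3 := (ha.mono (le_refl (-τ)) (show s ≤ s + τ / 2 by linarith)).glue hb2
        (by linarith) (by linarith) h2
      refine ⟨_, ?_, h3.mono le_rfl ?_⟩
      · simp [hs0, ha0]
      · have h4 : min (((n + 1 : ℕ) : ℝ) * (τ / 2)) T ≤ s + τ / 2 := by
          rw [hs, ← min_add_add_right]
          refine min_le_min ?_ (by linarith)
          push_cast
          linarith
        linarith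
  obtain ⟨n, hn⟩ := exists_nat_ge (T / (τ / 2))
  obtain ⟨a, ha0, ha⟩ := key n
  have hmin : min (n * (τ / 2)) T = T := by
    refine min_eq_right ?_
    rwa [div_le_iff₀ (by linarith)] at hn
  rw [hmin] at ha
  exact ⟨a, -τ, T + τ / 2, by linarith, by linarith, ha0, ha⟩

theorem global_of_apriori (w0 : ℝ → ℝ) (hs : ContDiff ℝ ((⊤ : ℕ∞) : WithTop ℕ∞) w0)
    (hp : Function.Periodic w0 (2 * π))
    (H : ∀ T : ℝ, 0 < T → Pool.Agent.H51.DG.APriori w0 T) :
    Pool.Agent.H51.DG.GlobalSmooth w0 := by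
  intro T hT
  obtain ⟨a0, hh, hr, he⟩ := fourier_data w0 hs hp
  obtain ⟨B, hB⟩ := H (T + 1) (by linarith)
  have hre : ∀ x, (FS a0 x).re = w0 x := by
    intro x; rw [← he x]; simp
  obtain ⟨a, α, β, hα, hβ, h0, hsol⟩ := steps a0 hh hr T hT B
    (fun a b w u ha hb hbT hS h0 => hB a b w u ha hb hbT hS (fun x => by rw [h0 x, hre x]))
  obtain ⟨ω, u, h1, h2, h3, h4, h5, h6, h7⟩ := hsol.toFrozen T hα hT hβ
  refine ⟨ω, u, h1, h2, h3, h4, ?_, h6, h7⟩
  intro x
  rw [h5 x, h0, hre x]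

end Pool.Agent.H45.DGL
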