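import Pool.Agent.H45.DGL.FourierInt

/-! JOB DL-13 (uses the stubs `summable_of_Rap`, `Rap_dx`, `Rap_vel`).  The nonlinearity in
physical space.

PROOF.  `P(c,d)`: `FS c x * FS d x = Σ'_{(j,l)} c j d l ex (j+l) x` for `Rap c d`
(`tsum_mul_tsum_of_summable_norm`, `ex_add`).
`FS c · FS (dx (vel c)) - FS (vel c) · FS (dx c) = Σ'_{(j,l)} [ (j I)(-c j/|j|) c l -
(-c j/|j|)(l I) c l ] ex (j+l) x = Σ'_{(j,l)} ker j l * (c j * c l) * ex (j+l) x`
(for the first product write it as `FS (dx (vel c)) * FS c`; `ker j l = -I (j-l)/|j|`).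
On the other side `FS (NL c) x = Σ'_k (Σ'_j ker j (k-j) (c j * c (k-j))) ex k x`
`= Σ'_{(k,j)} ker j (k-j) (c j c (k-j)) ex k x` (`Summable.tsum_prod'`/`Summable.tsum_sigma`), and the
equivalence `(j,l) ↦ (j+l, j)` of `ℤ × ℤ`.  Summability of the double family: it is the
composition of the summable family `(j,l) ↦ ...` (difference of two products of summable
families) with the equivalence. -/

set_option autoImplicit false
open Real Set

namespace Pool.Agent.H45.DGL

private lemma convId_summable (d : ℤ → ℂ) (hd : Rap d) (x : ℝ) :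
    Summable fun k => ‖d k * ex k x‖ := by
  refine (summable_of_Rap d hd).congr fun k => ?_
  rw [norm_mul, norm_ex, mul_one]

private lemma convId_term (c : ℤ → ℂ) (x : ℝ) (j l : ℤ) :
    ker j l * (c j * c l) * ex (j + l) x =
      (dx (vel c) j * ex j x) * (c l * ex l x) - (vel c j * ex j x) * (dx c l * ex l x) := by
  rw [ex_add]
  simp only [dx, vel, ker]
  ring

private def convIdE : ℤ × ℤ ≃ ℤ × ℤ where
  toFun p := (p.2, p.1 - p.2)
  invFun p := (p.1 + p.2, p.1)
  left_inv p := by ext <;> simp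
  right_inv p := by ext <;> simp

private lemma convId_sum (c : ℤ → ℂ) (h : Rap c) (x : ℝ) :
    HasSum (fun p : ℤ × ℤ => ker p.1 p.2 * (c p.1 * c p.2) * ex (p.1 + p.2) x)
      (FS c x * FS (dx (vel c)) x - FS (vel c) x * FS (dx c) x) := by
  have n1 := convId_summable _ h x
  have n2 := convId_summable _ (Rap_vel c h) x
  have n3 := convId_summable _ (Rap_dx _ (Rap_vel c h)) x
  have n4 := convId_summable _ (Rap_dx c h) x
  have s1 : HasSum (fun p : ℤ × ℤ => (dx (vel c) p.1 * ex p.1 x) * (c p.2 * ex p.2 x))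
      (FS (dx (vel c)) x * FS c x) := by
    have := (summable_mul_of_summable_norm n3 n1).hasSum
    rwa [← tsum_mul_tsum_of_summable_norm n3 n1] at this
  have s2 : HasSum (fun p : ℤ × ℤ => (vel c p.1 * ex p.1 x) * (dx c p.2 * ex p.2 x))
      (FS (vel c) x * FS (dx c) x) := by
    have := (summable_mul_of_summable_norm n2 n4).hasSum
    rwa [← tsum_mul_tsum_of_summable_norm n2 n4] at this
  have s3 := s1.sub s2
  rw [mul_comm (FS c x)]
  have e : (fun p : ℤ × ℤ => ker p.1 p.2 * (c p.1 * c p.2) * ex (p.1 + p.2) x) =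
      fun p : ℤ × ℤ => (dx (vel c) p.1 * ex p.1 x) * (c p.2 * ex p.2 x) -
        (vel c p.1 * ex p.1 x) * (dx c p.2 * ex p.2 x) := by
    funext p
    exact convId_term c x p.1 p.2
  rw [e]
  exact s3

theorem FS_NL (c : ℤ → ℂ) (h : Rap c) (x : ℝ) :
    FS (NL c) x = FS c x * FS (dx (vel c)) x - FS (vel c) x * FS (dx c) x := by
  have h1 := convId_sum c h x
  have h2 := (convIdE.hasSum_iff (f := fun p : ℤ × ℤ =>
    ker p.1 p.2 * (c p.1 * c p.2) * ex (p.1 + p.2) x)).2 h1
  rw [← h2.tsum_eq, h2.summable.tsum_prod]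
  unfold FS NL BL
  refine tsum_congr fun k => ?_
  rw [← tsum_mul_right]
  refine tsum_congr fun j => ?_
  show ker j (k - j) * (c j * c (k - j)) * ex k x =
    ker j (k - j) * (c j * c (k - j)) * ex (j + (k - j)) x
  rw [add_sub_cancel]

end Pool.Agent.H45.DGL
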