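import Pool.Agent.H45.DGL.JointSmooth

/-! JOB DL-10.  Elementary facts on absolutely convergent Fourier series.

* `summable_of_Rap`: comparison with `(wt 2 k)⁻¹`.
* `FS_per`: `ex k (x + 2π) = ex k x` (`Complex.exp_periodic`, integer multiples).
* `int_ex`: `∫_0^{2π} ex k x = 2π` if `k = 0`, else `0` (`integral_exp_mul_complex`).
* `int_FS`: interchange sum and integral (`intervalIntegral.hasSum_integral_of_summable_norm` or
  `hasSum_intervalIntegral_of_summable_norm`); `ex k x * ex (-m) x = ex (k-m) x`.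
* `FS_herm`: `conj (FS c x) = Σ conj(c k) ex (-k) x = Σ c (-k) ex (-k) x = FS c x`
  (`Complex.conj_tsum` / `map_tsum`, reindex by `Equiv.neg ℤ`). -/

set_option autoImplicit false
open Real Set MeasureTheory

namespace Pool.Agent.H45.DGL

lemma summable_of_Rap (c : ℤ → ℂ) (h : Rap c) : Summable fun k => ‖c k‖ := by
  obtain ⟨C, hC⟩ := h 2
  refine Summable.of_nonneg_of_le (fun k => norm_nonneg _) (fun k => ?_)
    (summable_inv_wt_two.mul_left C)
  have h1 := wt_pos 2 k
  rw [← div_eq_mul_inv, le_div_iff₀ h1, mul_comm]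
  exact hC k

lemma ex_add (k l : ℤ) (x : ℝ) : ex (k + l) x = ex k x * ex l x := by
  unfold ex
  rw [← Complex.exp_add]
  congr 1; push_cast; ring

lemma ex_per (k : ℤ) (x : ℝ) : ex k (x + 2 * π) = ex k x := by
  unfold ex
  have e : (k : ℂ) * ((x + 2 * π : ℝ) : ℂ) * Complex.I =
      (k : ℂ) * (x : ℂ) * Complex.I + (k : ℂ) * (2 * π * Complex.I) := by
    push_cast
    ring
  rw [e, Complex.exp_add, Complex.exp_int_mul_two_pi_mul_I, mul_one]

lemma FourierInt_ex_zero (x : ℝ) : ex 0 x = 1 := by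
  unfold ex
  simp

lemma FourierInt_cont_ex (k : ℤ) : Continuous (ex k) := by
  unfold ex
  fun_prop

lemma FourierInt_conj_ex (k : ℤ) (x : ℝ) : (starRingEnd ℂ) (ex k x) = ex (-k) x := by
  unfold ex
  rw [← Complex.exp_conj]
  congr 1
  have e2 : (starRingEnd ℂ) (k : ℂ) = (k : ℂ) := by
    rw [← Complex.ofReal_intCast, Complex.conj_ofReal]
  rw [map_mul, map_mul, Complex.conj_I, Complex.conj_ofReal, e2]
  push_cast
  ring

lemma FS_per (c : ℤ → ℂ) (x : ℝ) : FS c (x + 2 * π) = FS c x := by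
  unfold FS; simp only [ex_per]

lemma int_ex (k : ℤ) : ∫ x in (0:ℝ)..(2 * π), ex k x = if k = 0 then 2 * (π : ℂ) else 0 := by
  by_cases hk : k = 0
  · subst hk
    rw [if_pos rfl]
    simp only [FourierInt_ex_zero]
    rw [intervalIntegral.integral_const, sub_zero, Complex.real_smul, mul_one]
    push_cast
    rfl
  · rw [if_neg hk]
    have hc : (k : ℂ) * Complex.I ≠ 0 :=
      mul_ne_zero (Int.cast_ne_zero.2 hk) Complex.I_ne_zero
    have e : ∀ x : ℝ, ex k x = Complex.exp ((k : ℂ) * Complex.I * (x : ℂ)) := by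
      intro x
      unfold ex
      congr 1
      ring
    simp only [e]
    rw [integral_exp_mul_complex hc]
    have e1 : (k : ℂ) * Complex.I * ((2 * π : ℝ) : ℂ) = (k : ℂ) * (2 * π * Complex.I) := by
      push_cast
      ring
    rw [e1, Complex.exp_int_mul_two_pi_mul_I]
    simp

lemma int_FS (c : ℤ → ℂ) (h : Rap c) (m : ℤ) :
    ∫ x in (0:ℝ)..(2 * π), FS c x * ex (-m) x = 2 * (π : ℂ) * c m := by
  have hs := summable_of_Rap c h
  have h1 : HasSum (fun k : ℤ => ∫ x in (0:ℝ)..(2 * π), c k * ex k x * ex (-m) x)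
      (∫ x in (0:ℝ)..(2 * π), FS c x * ex (-m) x) := by
    apply intervalIntegral.hasSum_integral_of_dominated_convergence (fun k _ => ‖c k‖)
    · intro k
      exact ((continuous_const.mul (FourierInt_cont_ex k)).mul
        (FourierInt_cont_ex (-m))).aestronglyMeasurable
    · intro k
      refine Filter.Eventually.of_forall fun x _ => ?_
      rw [norm_mul, norm_mul, norm_ex, norm_ex, mul_one, mul_one]
    · exact Filter.Eventually.of_forall fun x _ => hs
    · exact intervalIntegrable_const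
    · refine Filter.Eventually.of_forall fun x _ => ?_
      apply HasSum.mul_right
      unfold FS
      apply Summable.hasSum
      apply Summable.of_norm
      simpa [norm_ex] using hs
  have h2 : ∀ k : ℤ, ∫ x in (0:ℝ)..(2 * π), c k * ex k x * ex (-m) x =
      if k = m then 2 * (π : ℂ) * c m else 0 := by
    intro k
    have e : ∀ x : ℝ, c k * ex k x * ex (-m) x = c k * ex (k + -m) x := by
      intro x
      rw [ex_add, mul_assoc]
    simp only [e]
    rw [intervalIntegral.integral_const_mul, int_ex]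
    by_cases hk : k = m
    · subst hk
      simp
      ring
    · rw [if_neg (by omega), if_neg hk, mul_zero]
  simp only [h2] at h1
  exact h1.unique (hasSum_ite_eq m _)

lemma FS_herm (c : ℤ → ℂ) (h : Herm c) (x : ℝ) : (((FS c x).re : ℝ) : ℂ) = FS c x := by
  rw [← Complex.conj_eq_iff_re]
  unfold FS
  rw [Complex.conj_tsum, ← (Equiv.neg ℤ).tsum_eq]
  apply tsum_congr
  intro k
  rw [Equiv.neg_apply, map_mul, FourierInt_conj_ex, neg_neg, ← h (-k), neg_neg]

lemma Rap_dx (c : ℤ → ℂ) (h : Rap c) : Rap (dx c) := by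
  intro s
  obtain ⟨C, hC⟩ := h (s + 1)
  refine ⟨C, fun k => le_trans ?_ (hC k)⟩
  unfold dx
  rw [norm_mul, norm_mul, Complex.norm_I, mul_one, Complex.norm_intCast, wt_add_left, wt_one,
    mul_assoc]
  have h1 := wt_pos s k
  have h2 := norm_nonneg (c k)
  gcongr
  linarith

lemma FourierInt_norm_vel (c : ℤ → ℂ) (k : ℤ) : ‖vel c k‖ ≤ ‖c k‖ := by
  unfold vel
  by_cases hk : k = 0
  · subst hk
    simp
  · have h1 : (1 : ℝ) ≤ |(k : ℝ)| := by
      have := Int.one_le_abs hk
      exact_mod_cast this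
    rw [norm_div, norm_neg, Complex.norm_real, Real.norm_eq_abs, abs_abs]
    exact div_le_self (norm_nonneg _) h1

lemma Rap_vel (c : ℤ → ℂ) (h : Rap c) : Rap (vel c) := by
  intro s
  obtain ⟨C, hC⟩ := h s
  refine ⟨C, fun k => le_trans ?_ (hC k)⟩
  exact mul_le_mul_of_nonneg_left (FourierInt_norm_vel c k) (wt_pos s k).le

lemma Herm_dx (c : ℤ → ℂ) (h : Herm c) : Herm (dx c) := by
  intro k
  have e2 : (starRingEnd ℂ) (k : ℂ) = (k : ℂ) := by
    rw [← Complex.ofReal_intCast, Complex.conj_ofReal]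
  unfold dx
  rw [map_mul, map_mul, Complex.conj_I, e2, h k]
  push_cast
  ring

lemma Herm_vel (c : ℤ → ℂ) (h : Herm c) : Herm (vel c) := by
  intro k
  unfold vel
  rw [map_div₀, map_neg, Complex.conj_ofReal, h k]
  push_cast
  rw [abs_neg]

lemma dx_vel (c : ℤ → ℂ) : dx (vel c) = hil c := by
  funext k
  unfold dx vel hil
  rcases lt_trichotomy k 0 with hk | hk | hk
  · have h1 : (k : ℝ) < 0 := by exact_mod_cast hk
    have h2 : (k : ℂ) ≠ 0 := Int.cast_ne_zero.2 hk.ne
    rw [Int.sign_eq_neg_one_of_neg hk, abs_of_neg h1]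
    push_cast
    field_simp
  · subst hk
    simp
  · have h1 : (0 : ℝ) < k := by exact_mod_cast hk
    have h2 : (k : ℂ) ≠ 0 := Int.cast_ne_zero.2 hk.ne'
    rw [Int.sign_eq_one_of_pos hk, abs_of_pos h1]
    push_cast
    field_simp

end Pool.Agent.H45.DGL
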