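import Pool.Agent.H45.DGL.Weights
import Pool.Agent.H58.DGL.Bounds

/-! JOB DL-07 (helper58; his proofs are in `Pool/Agent/H58/DGL/`).  The Galerkin solutions as a
family with bounds uniform in `n`, on a time interval that depends only on `R ≥ En 1 a0`.

`A n` = Galerkin solution with modes `|k| ≤ n` and initial value the truncation of `a0`
(`En s (A n 0) ≤ En s a0 < ∞`); `En 1 ≤ 2 R` on `[0,τ]`, so the cut-off is `1`; all higher energies
are bounded by `En s a0 * exp(K)` uniformly in `n`; for `a` supported in `|k| ≤ n`: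
`NL a k = bb (Icc (-n) n) a a k`. -/

set_option autoImplicit false
open Real Set

namespace Pool.Agent.H45.DGL

open Pool.Agent.H58.DGL in
lemma h58_bb_eq_NL {S : Finset ℤ} {a : ℤ → ℂ} (ha : ∀ k, k ∉ S → a k = 0) (k : ℤ) :
    bb S a a k = NL a k := by
  have h1 : NL a k = ∑' l : ℤ, ker (k - l) l * (a (k - l) * a l) := by
    unfold NL BL
    rw [← (Equiv.subLeft k).tsum_eq]
    refine tsum_congr fun l => ?_
    simp only [Equiv.subLeft_apply, sub_sub_cancel]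
  rw [h1, tsum_eq_sum (s := S), bb, Finset.mul_sum]
  · refine Finset.sum_congr rfl fun l _ => ?_
    have e : ((|k - l| : ℤ) : ℂ) = ((|((k - l : ℤ) : ℝ)| : ℝ) : ℂ) := by
      rw [← Int.cast_abs, Complex.ofReal_intCast]
    unfold ker
    rw [e]
    push_cast
    ring
  · intro l hl
    rw [ha l hl, mul_zero, mul_zero]

open Pool.Agent.H58.DGL in
theorem galerkin_family (R : ℝ) (hR : 0 < R) : ∃ τ : ℝ, 0 < τ ∧
    ∀ a0 : ℤ → ℂ, Herm a0 → Rap a0 → En 1 a0 ≤ R →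
      ∃ A : ℕ → ℝ → ℤ → ℂ,
        (∀ s : ℕ, ∃ C : ℝ, ∀ n, ∀ t ∈ Icc 0 τ, ∀ k, wt s k * ‖A n t k‖ ≤ C) ∧
        (∀ n, ∀ t ∈ Icc 0 τ, Herm (A n t)) ∧
        (∀ (n : ℕ) (k : ℤ), |k| ≤ n → A n 0 k = a0 k) ∧
        (∀ (n : ℕ) (t : ℝ) (k : ℤ), (n : ℤ) < |k| → A n t k = 0) ∧
        (∀ (n : ℕ), ∀ t ∈ Icc 0 τ, ∀ k : ℤ, |k| ≤ n →
          HasDerivWithinAt (fun r => A n r k) (NL (A n t) k) (Icc 0 τ) t) := by
  classical
  refine ⟨tau R, tau_pos hR, fun a0 hH hRap hEn => ?_⟩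
  -- summability of the energies
  have hsum : ∀ s : ℕ, Summable fun k : ℤ => wt s k ^ 2 * ‖a0 k‖ ^ 2 := by
    intro s
    obtain ⟨C, hC⟩ := hRap (s + 1)
    refine Summable.of_nonneg_of_le (fun k => by positivity) (fun k => ?_)
      (summable_inv_wt_two.mul_left (C ^ 2))
    have h1 : wt (s + 1) k = wt s k * wt 1 k := wt_add_left s 1 k
    have h2 : wt 2 k = wt 1 k ^ 2 := by unfold wt; ring
    have h3 := wt_pos 1 k
    have h4 := wt_pos s k
    have h5 : 0 ≤ wt (s + 1) k * ‖a0 k‖ := mul_nonneg (wt_pos _ _).le (norm_nonneg _)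
    rw [h2, ← div_eq_mul_inv, le_div_iff₀ (by positivity)]
    calc wt s k ^ 2 * ‖a0 k‖ ^ 2 * wt 1 k ^ 2 = (wt (s + 1) k * ‖a0 k‖) ^ 2 := by
          rw [h1]; ring
      _ ≤ C ^ 2 := by gcongr; exact hC k
  let c0 : ℕ → ℤ → ℂ := fun n k => if k ∈ SS n then a0 k else 0
  have hc0S : ∀ n k, k ∉ SS n → c0 n k = 0 := fun n k hk => if_neg hk
  have hc0H : ∀ n k, c0 n (-k) = (starRingEnd ℂ) (c0 n k) := by
    intro n k
    simp only [c0, neg_mem_SS]
    split_ifs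
    · exact hH k
    · rw [map_zero]
  have hc0E : ∀ n s, EE s (SS n) (c0 n) ≤ En s a0 := by
    intro n s
    unfold EE En
    have h1 : ∑ k ∈ SS n, mm s k ^ 2 * ‖c0 n k‖ ^ 2 = ∑ k ∈ SS n, wt s k ^ 2 * ‖a0 k‖ ^ 2 := by
      refine Finset.sum_congr rfl fun k hk => ?_
      simp only [c0, if_pos hk]
      rfl
    rw [h1]
    exact (hsum s).sum_le_tsum _ fun k _ => by positivity
  have hex := fun n : ℕ => galerkin_local (S := SS n) (fun k hk => neg_mem_SS.mpr hk) hR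
    (hc0H n) (hc0S n) ((hc0E n 1).trans hEn)
  choose A hA0 hAr hAS hAd _ hAE using hex
  have hI : ∀ t ∈ Icc 0 (tau R), t ∈ Icc (-tau R) (tau R) := fun t ht =>
    ⟨by linarith [ht.1, tau_pos hR], ht.2⟩
  refine ⟨A, ?_, ?_, ?_, ?_, ?_⟩
  · intro s
    refine ⟨√(En (s + 1) a0 * GG R s), fun n t ht k => ?_⟩
    by_cases hk : k ∈ SS n
    · refine Real.le_sqrt_of_sq_le ?_
      have h1 := hAE n s t (hI t ht)
      have h2 := hc0E n (s + 1)
      have h3 : 0 ≤ GG R s := (Real.exp_pos _).le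
      have h4 : (wt s k * ‖A n t k‖) ^ 2 ≤ EE (s + 1) (SS n) (A n t) := by
        have h5 : mm (s + 1) k ^ 2 * ‖A n t k‖ ^ 2 ≤ EE (s + 1) (SS n) (A n t) :=
          Finset.single_le_sum (f := fun k => mm (s + 1) k ^ 2 * ‖A n t k‖ ^ 2)
            (fun _ _ => by positivity) hk
        refine le_trans ?_ h5
        have h6 : wt s k ≤ mm (s + 1) k := wt_mono (Nat.le_succ s) k
        have h7 := wt_pos s k
        rw [mul_pow]
        gcongr
      calc (wt s k * ‖A n t k‖) ^ 2 ≤ EE (s + 1) (SS n) (A n t) := h4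
        _ ≤ EE (s + 1) (SS n) (c0 n) * GG R s := h1
        _ ≤ En (s + 1) a0 * GG R s := by gcongr
    · rw [hAS n t k hk, norm_zero, mul_zero]
      exact Real.sqrt_nonneg _
  · intro n t _ k
    exact hAr n t k
  · intro n k hk
    rw [hA0]
    exact if_pos (mem_SS.mpr hk)
  · intro n t k hk
    exact hAS n t k fun h => absurd (mem_SS.mp h) (not_le.mpr hk)
  · intro n t ht k hk
    have h1 := hAd n t (hI t ht) k (mem_SS.mpr hk)
    rw [h58_bb_eq_NL (hAS n t)] at h1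
    exact h1.hasDerivWithinAt

end Pool.Agent.H45.DGL
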