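import Pool.Agent.H45.DGL.Basic

/-! JOB DL-11.  `∫_0^π sin(ks) cot(s/2) ds = π` for `k ≥ 1`.

PROOF.  For `n : ℕ`, `s ∈ (0,π]`: `sin(ns) cot(s/2)` satisfies
`sin((n+1)s) cot(s/2) - sin(ns) cot(s/2) = 2 cos((2n+1)s/2) sin(s/2) cot(s/2)
= 2 cos((n+1/2)s) cos(s/2) = cos((n+1)s) + cos(ns)`; the integral of `cos(ms)` over `[0,π]` is `0`
for `m ≥ 1` and `π` for `m = 0`.  So `I(n+1) - I(n) = ∫ cos((n+1)s) + ∫ cos(ns)`, `I(0) = 0`,
`I(1) = π`, `I(n+1) = I(n)` for `n ≥ 1`.  The integrands agree on `(0,π]`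
(`intervalIntegral.integral_congr_ae`, or by induction
`sin(ns) cot(s/2) = (continuous trigonometric polynomial)` on `(0,π]`), which also gives
integrability.  `mode_bound`: `|sin(ks)| ≤ |k| s` and `cos(s/2)/sin(s/2) ≤ 2/s·(...)`: on `(0,π]`
`sin(s/2) ≥ s/π` (`Real.mul_le_sin`), so `|sin(ks) cot(s/2)| ≤ |k| s * π / s = π |k|`. -/

set_option autoImplicit false
open Real Set MeasureTheory

namespace Pool.Agent.H45.DGL

private lemma HTmode_sin_ge (s : ℝ) (h0 : 0 < s) (h1 : s ≤ π) : s / π ≤ Real.sin (s / 2) := by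
  have h := Real.mul_le_sin (x := s / 2) (by linarith) (by linarith)
  have e : 2 / π * (s / 2) = s / π := by ring
  rw [e] at h
  exact h

private lemma HTmode_bound (k : ℤ) (s : ℝ) (h0 : 0 < s) (h1 : s ≤ π) :
    |Real.sin (k * s) * (Real.cos (s / 2) / Real.sin (s / 2))| ≤ π * |(k : ℝ)| := by
  have hpi := Real.pi_pos
  have hs := HTmode_sin_ge s h0 h1
  have hsp : 0 < s / π := by positivity
  have hs0 : 0 < Real.sin (s / 2) := lt_of_lt_of_le hsp hs
  have h2 : |Real.sin (k * s)| ≤ |(k : ℝ)| * s := by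
    have h3 : |Real.sin (k * s)| ≤ |(k : ℝ) * s| := Real.abs_sin_le_abs
    rwa [abs_mul, abs_of_pos h0] at h3
  have h4 : |Real.cos (s / 2) / Real.sin (s / 2)| ≤ π / s := by
    rw [abs_div, abs_of_pos hs0, div_le_div_iff₀ hs0 h0]
    have h5 := Real.abs_cos_le_one (s / 2)
    have h6 : s ≤ π * Real.sin (s / 2) := by
      rw [div_le_iff₀ hpi] at hs
      linarith
    nlinarith [abs_nonneg (Real.cos (s / 2))]
  rw [abs_mul]
  calc |Real.sin (k * s)| * |Real.cos (s / 2) / Real.sin (s / 2)|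
      ≤ (|(k : ℝ)| * s) * (π / s) :=
        mul_le_mul h2 h4 (abs_nonneg _) (by positivity)
    _ = π * |(k : ℝ)| := by
        field_simp

lemma mode_integrable (k : ℤ) : IntervalIntegrable
    (fun s : ℝ => Real.sin (k * s) * (Real.cos (s / 2) / Real.sin (s / 2))) volume 0 π := by
  rw [intervalIntegrable_iff_integrableOn_Ioc_of_le Real.pi_pos.le]
  refine Measure.integrableOn_of_bounded (M := π * |(k : ℝ)|) (by simp) ?_ ?_
  · have h1 : Measurable (fun s : ℝ => Real.sin (k * s) * (Real.cos (s / 2) / Real.sin (s / 2))) := by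
      refine Measurable.mul (by fun_prop) (Measurable.div (by fun_prop) (by fun_prop))
    exact h1.aestronglyMeasurable
  · refine (ae_restrict_iff' measurableSet_Ioc).2 (Filter.Eventually.of_forall fun s hs => ?_)
    rw [Real.norm_eq_abs]
    exact HTmode_bound k s hs.1 hs.2

private lemma HTmode_cos (m : ℕ) (hm : 1 ≤ m) : ∫ s in (0:ℝ)..π, Real.cos ((m:ℝ) * s) = 0 := by
  have hm0 : (m:ℝ) ≠ 0 := by
    have : 0 < m := hm
    positivity
  rw [intervalIntegral.integral_comp_mul_left (fun x => Real.cos x) hm0, integral_cos,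
    mul_zero, Real.sin_zero, Real.sin_nat_mul_pi]
  simp

private lemma HTmode_cont (m : ℕ) :
    IntervalIntegrable (fun s : ℝ => Real.cos ((m:ℝ) * s)) volume 0 π :=
  (by fun_prop : Continuous fun s : ℝ => Real.cos ((m:ℝ) * s)).intervalIntegrable _ _

private noncomputable def HTmodeI (n : ℕ) : ℝ :=
  ∫ s in (0:ℝ)..π, Real.sin ((n:ℝ) * s) * (Real.cos (s / 2) / Real.sin (s / 2))

private lemma HTmode_int (n : ℕ) : IntervalIntegrable
    (fun s : ℝ => Real.sin ((n:ℝ) * s) * (Real.cos (s / 2) / Real.sin (s / 2))) volume 0 π := by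
  have h := mode_integrable (n : ℤ)
  simpa using h

private lemma HTmode_step (n : ℕ) : HTmodeI (n + 1) - HTmodeI n =
    (∫ s in (0:ℝ)..π, Real.cos (((n + 1 : ℕ):ℝ) * s)) + ∫ s in (0:ℝ)..π, Real.cos ((n:ℝ) * s) := by
  unfold HTmodeI
  rw [← intervalIntegral.integral_sub (HTmode_int (n + 1)) (HTmode_int n),
    ← intervalIntegral.integral_add (HTmode_cont (n + 1)) (HTmode_cont n),
    intervalIntegral.integral_of_le Real.pi_pos.le, intervalIntegral.integral_of_le Real.pi_pos.le]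
  refine setIntegral_congr_fun measurableSet_Ioc fun s hs => ?_
  have hs0 : Real.sin (s / 2) ≠ 0 := by
    have h1 := HTmode_sin_ge s hs.1 hs.2
    have hsp : 0 < s / π := div_pos hs.1 Real.pi_pos
    exact (lt_of_lt_of_le hsp h1).ne'
  have e1 : Real.sin (((n + 1 : ℕ):ℝ) * s) - Real.sin ((n:ℝ) * s) =
      2 * Real.sin (s / 2) * Real.cos ((((n + 1 : ℕ):ℝ) * s + (n:ℝ) * s) / 2) := by
    rw [Real.sin_sub_sin]
    have e : (((n + 1 : ℕ):ℝ) * s - (n:ℝ) * s) / 2 = s / 2 := by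
      push_cast
      ring
    rw [e]
  have e2 : Real.cos (((n + 1 : ℕ):ℝ) * s) + Real.cos ((n:ℝ) * s) =
      2 * Real.cos ((((n + 1 : ℕ):ℝ) * s + (n:ℝ) * s) / 2) * Real.cos (s / 2) := by
    rw [Real.cos_add_cos]
    have e : (((n + 1 : ℕ):ℝ) * s - (n:ℝ) * s) / 2 = s / 2 := by
      push_cast
      ring
    rw [e]
  show Real.sin (((n + 1 : ℕ):ℝ) * s) * (Real.cos (s / 2) / Real.sin (s / 2))
      - Real.sin ((n:ℝ) * s) * (Real.cos (s / 2) / Real.sin (s / 2))
    = Real.cos (((n + 1 : ℕ):ℝ) * s) + Real.cos ((n:ℝ) * s)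
  rw [← sub_mul, e1, e2]
  field_simp

private lemma HTmode_zero : HTmodeI 0 = 0 := by
  unfold HTmodeI
  simp

private lemma HTmode_one : HTmodeI 1 = π := by
  have h := HTmode_step 0
  rw [HTmode_zero, HTmode_cos (0 + 1) le_rfl] at h
  simp at h
  exact h

private lemma HTmode_pos (n : ℕ) : HTmodeI (n + 1) = π := by
  induction n with
  | zero => exact HTmode_one
  | succ n ih =>
      have h := HTmode_step (n + 1)
      rw [HTmode_cos (n + 1 + 1) (by omega), HTmode_cos (n + 1) (by omega)] at h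
      linarith

theorem mode_integral (k : ℤ) :
    ∫ s in (0:ℝ)..π, Real.sin (k * s) * (Real.cos (s / 2) / Real.sin (s / 2)) =
      π * ((Int.sign k : ℤ) : ℝ) := by
  rcases lt_trichotomy k 0 with h | h | h
  · obtain ⟨n, hn⟩ : ∃ n : ℕ, k = -((n:ℤ) + 1) := ⟨(-k - 1).toNat, by omega⟩
    have e : (fun s : ℝ => Real.sin (k * s) * (Real.cos (s / 2) / Real.sin (s / 2)))
        = fun s : ℝ => -(Real.sin (((n + 1 : ℕ):ℝ) * s) * (Real.cos (s / 2) / Real.sin (s / 2))) := by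
      funext s
      have e1 : (k:ℝ) * s = -(((n + 1 : ℕ):ℝ) * s) := by
        rw [hn]
        push_cast
        ring
      rw [e1, Real.sin_neg, neg_mul]
    rw [e, intervalIntegral.integral_neg]
    have h1 := HTmode_pos n
    unfold HTmodeI at h1
    rw [h1, Int.sign_eq_neg_one_of_neg h]
    simp
  · subst h
    simp
  · obtain ⟨n, hn⟩ : ∃ n : ℕ, k = (n:ℤ) + 1 := ⟨(k - 1).toNat, by omega⟩
    have h1 := HTmode_pos n
    unfold HTmodeI at h1
    have e1 : (k:ℝ) = ((n + 1 : ℕ):ℝ) := by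
      rw [hn]
      push_cast
      ring
    rw [e1, h1, Int.sign_eq_one_of_pos h]
    simp

lemma mode_bound (k : ℤ) (s : ℝ) (h0 : 0 < s) (h1 : s ≤ π) :
    |Real.sin (k * s) * (Real.cos (s / 2) / Real.sin (s / 2))| ≤ π * |(k : ℝ)| :=
  HTmode_bound k s h0 h1

end Pool.Agent.H45.DGL
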