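import Pool.Agent.H45.DGL.HTmode
import Pool.Agent.H45.DGL.FourierInt
import Pool.Agent.H51.DG.Defs

/-! JOB DL-12 (uses the stubs `mode_integral`, `mode_bound`, `mode_integrable`, `FS_herm`,
`summable_of_Rap`).  Hilbert transform of a Fourier series.

PROOF.  For `f = fun x => (FS c x).re` (`= FS c x` as a complex number by `FS_herm`):
`FS c (x-s) - FS c (x+s) = Σ_k c k ex k x (ex k (-s) - ex k s) = Σ_k c k ex k x (-2i sin(ks))`, so
`((f (x-s) - f (x+s)) * cot(s/2) : ℂ) = Σ_k -2i c k ex k x * (sin(ks) cot(s/2))` with the bound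
`2π |k| ‖c k‖` (summable since `Rap c`) on `(0,π]`; interchange
(`intervalIntegral.hasSum_integral_of_dominated_convergence` or
`MeasureTheory.hasSum_integral_of_summable_integral_norm`) and `mode_integral`:
`HT f x = (1/2π) Σ_k -2i c k ex k x π sign k = Σ_k hil c k * ex k x`. -/

set_option autoImplicit false
open Real Set MeasureTheory

namespace Pool.Agent.H45.DGL

private lemma hts_summable (c : ℤ → ℂ) (h : Rap c) (y : ℝ) : Summable fun k => c k * ex k y := by
  refine Summable.of_norm ((summable_of_Rap c h).congr fun k => ?_)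
  rw [norm_mul, norm_ex, mul_one]

private lemma hts_ex_diff (k : ℤ) (x s : ℝ) :
    ex k (x - s) - ex k (x + s) = ex k x * (-2 * Complex.I) * ((Real.sin (k * s) : ℝ) : ℂ) := by
  have e1 : ex k (x - s) = ex k x * Complex.exp (-((k : ℂ) * s) * Complex.I) := by
    unfold ex
    rw [← Complex.exp_add]
    congr 1
    push_cast
    ring
  have e2 : ex k (x + s) = ex k x * Complex.exp (((k : ℂ) * s) * Complex.I) := by
    unfold ex
    rw [← Complex.exp_add]
    congr 1
    push_cast
    ring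
  rw [e1, e2, Complex.ofReal_sin, Complex.sin]
  push_cast
  have hI := Complex.I_mul_I
  linear_combination ((ex k x) * (Complex.exp (-((k : ℂ) * s) * Complex.I) -
    Complex.exp (((k : ℂ) * s) * Complex.I))) * hI

private lemma hts_key (c : ℤ → ℂ) (h : Rap c) (hh : Herm c) (x s : ℝ) : HasSum
    (fun k : ℤ => c k * ex k x * (-2 * Complex.I) *
      ((Real.sin (k * s) * (Real.cos (s / 2) / Real.sin (s / 2)) : ℝ) : ℂ))
    ((((FS c (x - s)).re - (FS c (x + s)).re) *
      (Real.cos (s / 2) / Real.sin (s / 2)) : ℝ) : ℂ) := by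
  have h1 := ((hts_summable c h (x - s)).hasSum.sub (hts_summable c h (x + s)).hasSum).mul_right
    (((Real.cos (s / 2) / Real.sin (s / 2)) : ℝ) : ℂ)
  have e1 : ((((FS c (x - s)).re - (FS c (x + s)).re) *
      (Real.cos (s / 2) / Real.sin (s / 2)) : ℝ) : ℂ) =
      (∑' k, c k * ex k (x - s) - ∑' k, c k * ex k (x + s)) *
        (((Real.cos (s / 2) / Real.sin (s / 2)) : ℝ) : ℂ) := by
    rw [Complex.ofReal_mul, Complex.ofReal_sub, FS_herm c hh, FS_herm c hh]
    rfl
  have e2 : (fun k : ℤ => c k * ex k x * (-2 * Complex.I) *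
      ((Real.sin (k * s) * (Real.cos (s / 2) / Real.sin (s / 2)) : ℝ) : ℂ)) =
      fun k : ℤ => (c k * ex k (x - s) - c k * ex k (x + s)) *
        (((Real.cos (s / 2) / Real.sin (s / 2)) : ℝ) : ℂ) := by
    funext k
    rw [← mul_sub, hts_ex_diff, Complex.ofReal_mul]
    ring
  rw [e1, e2]
  exact h1

private lemma hts_bound (c : ℤ → ℂ) (x : ℝ) (k : ℤ) (s : ℝ) (h0 : 0 < s) (h1 : s ≤ π) :
    ‖c k * ex k x * (-2 * Complex.I) *
      ((Real.sin (k * s) * (Real.cos (s / 2) / Real.sin (s / 2)) : ℝ) : ℂ)‖ ≤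
      2 * π * ‖dx c k‖ := by
  have e1 : ‖dx c k‖ = |(k : ℝ)| * ‖c k‖ := by
    unfold dx
    rw [norm_mul, norm_mul, Complex.norm_I, mul_one, Complex.norm_intCast]
  rw [norm_mul, norm_mul, norm_mul, norm_ex, norm_mul, norm_neg, Complex.norm_I, Complex.norm_real,
    Real.norm_eq_abs, e1, Complex.norm_ofNat]
  have := mode_bound k s h0 h1
  nlinarith [norm_nonneg (c k), mul_le_mul_of_nonneg_left this (norm_nonneg (c k))]

private lemma hts_summable_dx (c : ℤ → ℂ) (h : Rap c) :
    Summable fun k => 2 * π * ‖dx c k‖ := (summable_of_Rap _ (Rap_dx c h)).mul_left _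

theorem HT_FS (c : ℤ → ℂ) (h : Rap c) (hh : Herm c) (x : ℝ) :
    ((Pool.Agent.H51.DG.HT (fun y => (FS c y).re) x : ℝ) : ℂ) = FS (hil c) x := by
  have hpi : (π : ℂ) ≠ 0 := by exact_mod_cast Real.pi_pos.ne'
  have h1 : HasSum (fun k : ℤ => ∫ s in (0:ℝ)..π, c k * ex k x * (-2 * Complex.I) *
      ((Real.sin (k * s) * (Real.cos (s / 2) / Real.sin (s / 2)) : ℝ) : ℂ))
      (∫ s in (0:ℝ)..π, ((((FS c (x - s)).re - (FS c (x + s)).re) *
        (Real.cos (s / 2) / Real.sin (s / 2)) : ℝ) : ℂ)) := by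
    refine intervalIntegral.hasSum_integral_of_dominated_convergence
      (fun k _ => 2 * π * ‖dx c k‖) ?_ ?_ ?_ ?_ ?_
    · intro k
      have := (mode_integrable k).1.aestronglyMeasurable
      rw [uIoc_of_le Real.pi_pos.le]
      exact (Complex.continuous_ofReal.comp_aestronglyMeasurable this).const_mul _
    · intro k
      refine Filter.Eventually.of_forall fun s hs => ?_
      rw [uIoc_of_le Real.pi_pos.le] at hs
      exact hts_bound c x k s hs.1 hs.2
    · exact Filter.Eventually.of_forall fun s hs => hts_summable_dx c h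
    · exact intervalIntegrable_const
    · exact Filter.Eventually.of_forall fun s hs => hts_key c h hh x s
  have e1 : ∀ k : ℤ, (∫ s in (0:ℝ)..π, c k * ex k x * (-2 * Complex.I) *
      ((Real.sin (k * s) * (Real.cos (s / 2) / Real.sin (s / 2)) : ℝ) : ℂ)) =
      2 * π * (hil c k * ex k x) := by
    intro k
    rw [intervalIntegral.integral_const_mul, intervalIntegral.integral_ofReal, mode_integral]
    unfold hil
    push_cast
    ring
  simp only [e1] at h1
  rw [intervalIntegral.integral_ofReal] at h1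
  unfold Pool.Agent.H51.DG.HT
  have h2 := h1.mul_left (1 / (2 * π) : ℂ)
  have h3 : HasSum (fun k : ℤ => hil c k * ex k x)
      ((1 / (2 * π) : ℂ) * ((∫ s in (0:ℝ)..π, (((FS c (x - s)).re - (FS c (x + s)).re) *
        (Real.cos (s / 2) / Real.sin (s / 2))) : ℝ) : ℂ)) := by
    have e2 : (fun k : ℤ => (1 / (2 * π) : ℂ) * (2 * π * (hil c k * ex k x))) =
        fun k : ℤ => hil c k * ex k x := by
      funext k
      field_simp
    rw [e2] at h2
    exact h2
  unfold FS
  rw [h3.tsum_eq]
  push_cast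
  rfl

end Pool.Agent.H45.DGL
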