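import Pool.Agent.H45.DGL.TimeReg

/-! JOB DL-06 (uses the stubs `DD.mult`, `DD.cont`, `DD.mono`).  Joint smoothness of Fourier series
with coefficients in `DD m`.

PROOF of `contDiff_FS` by induction on `m` (generalising `c`).  `m = 0`: `contDiff_zero`,
`continuous_tsum`: every term `c p.1 k * ex k p.2` is continuous, `‖c t k‖ ≤ C * (wt 2 k)⁻¹`,
`‖ex k x‖ = 1`.  `m + 1`: `contDiff_succ_iff_hasFDerivAt` with
`f' p = FS (c' p.1) p.2 • fst + FS (dx (c p.1)) p.2 • snd` (real-linear maps `ℝ × ℝ →L[ℝ] ℂ`,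
`ContinuousLinearMap.fst ℝ ℝ ℝ`, `.smulRight` etc.), which is `ContDiff ℝ m` by the induction
hypothesis for `c'` and for `dx c` (`DD.mult` with `p k = k I`, `K = 1`, `r = 1`, and `DD.mono`).
The derivative: `hasFDerivAt_tsum` (uniform bound
`‖term'‖ ≤ ‖c' t k‖ + |k| ‖c t k‖ ≤ C * (wt 2 k)⁻¹`) and each term by the product rule:
`ex k` has the derivative `k I ex k x`.  Then split the `tsum` of linear maps
(`Summable.tsum_add`, `ContinuousLinearMap.map_tsum`/`tsum_smul_const`).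
`FS_hasDerivAt_t`, `FS_hasDerivAt_x`: `hasDerivAt_tsum` in one variable. -/

set_option autoImplicit false
open Real Set

namespace Pool.Agent.H45.DGL

lemma norm_ex (k : ℤ) (x : ℝ) : ‖ex k x‖ = 1 := by
  unfold ex
  have : (k : ℂ) * (x : ℂ) * Complex.I = ((k * x : ℝ) : ℂ) * Complex.I := by push_cast; ring
  rw [this, Complex.norm_exp_ofReal_mul_I]

lemma JS_hasDerivAt_ex (k : ℤ) (x : ℝ) : HasDerivAt (ex k) ((k : ℂ) * Complex.I * ex k x) x := by
  unfold ex
  have h1 : HasDerivAt (fun y : ℝ => (y : ℂ)) 1 x := by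
    simpa using (hasDerivAt_id x).ofReal_comp
  have h2 : HasDerivAt (fun y : ℝ => (k : ℂ) * (y : ℂ) * Complex.I) ((k : ℂ) * 1 * Complex.I) x :=
    (h1.const_mul (k : ℂ)).mul_const Complex.I
  have h3 := h2.cexp
  rw [mul_one, mul_comm] at h3
  exact h3

lemma JS_continuous_ex (k : ℤ) : Continuous (ex k) :=
  continuous_iff_continuousAt.2 fun x => (JS_hasDerivAt_ex k x).continuousAt

lemma JS_le {z : ℂ} {k : ℤ} {C : ℝ} (h : wt 2 k * ‖z‖ ≤ C) : ‖z‖ ≤ C * (wt 2 k)⁻¹ := by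
  have h1 := wt_pos 2 k
  rw [← div_eq_mul_inv, le_div_iff₀ h1, mul_comm]
  exact h

lemma JS_dx_norm (c : ℤ → ℂ) (k : ℤ) : ‖dx c k‖ ≤ wt 1 k * ‖c k‖ := by
  unfold dx
  rw [norm_mul, norm_mul, Complex.norm_I, mul_one, wt_one]
  refine mul_le_mul_of_nonneg_right ?_ (norm_nonneg _)
  rw [Complex.norm_intCast]
  linarith

lemma JS_dx_le {c : ℤ → ℂ} {k : ℤ} {C : ℝ} (h : wt 3 k * ‖c k‖ ≤ C) :
    ‖dx c k‖ ≤ C * (wt 2 k)⁻¹ := by
  apply JS_le
  have h1 : wt 3 k = wt 2 k * wt 1 k := wt_add_left 2 1 k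
  rw [h1, mul_assoc] at h
  exact (mul_le_mul_of_nonneg_left (JS_dx_norm c k) (wt_pos 2 k).le).trans h

lemma FS_hasDerivAt_x (c : ℤ → ℂ) (h : Rap c) (x : ℝ) : HasDerivAt (FS c) (FS (dx c) x) x := by
  obtain ⟨C, hC⟩ := h 3
  obtain ⟨C2, hC2⟩ := h 2
  have key := hasDerivAt_tsum (𝕜 := ℝ) (g := fun (k : ℤ) (y : ℝ) => c k * ex k y)
    (g' := fun k y => c k * ((k : ℂ) * Complex.I * ex k y)) (y₀ := (0 : ℝ))
    (summable_inv_wt_two.mul_left C) (fun k y => (JS_hasDerivAt_ex k y).const_mul (c k))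
    (fun k y => by
      have h1 : c k * ((k : ℂ) * Complex.I * ex k y) = dx c k * ex k y := by
        unfold dx
        ring
      rw [h1, norm_mul, norm_ex, mul_one]
      exact JS_dx_le (hC k))
    (Summable.of_norm_bounded (summable_inv_wt_two.mul_left C2) fun k => by
      rw [norm_mul, norm_ex, mul_one]
      exact JS_le (hC2 k)) x
  have h2 : FS (dx c) x = ∑' k : ℤ, c k * ((k : ℂ) * Complex.I * ex k x) := by
    unfold FS
    refine tsum_congr fun k => ?_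
    unfold dx
    ring
  rw [h2]
  exact key

lemma FS_hasDerivAt_t (c c' : ℝ → ℤ → ℂ) (hc : URap univ c) (hc' : URap univ c')
    (h1 : ∀ t k, HasDerivAt (fun r => c r k) (c' t k) t) (t x : ℝ) :
    HasDerivAt (fun r => FS (c r) x) (FS (c' t) x) t := by
  obtain ⟨C, hC⟩ := hc 2
  obtain ⟨C', hC'⟩ := hc' 2
  exact hasDerivAt_tsum (𝕜 := ℝ) (g := fun (k : ℤ) (r : ℝ) => c r k * ex k x)
    (g' := fun k r => c' r k * ex k x) (y₀ := (0 : ℝ))
    (summable_inv_wt_two.mul_left C') (fun k r => (h1 r k).mul_const (ex k x))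
    (fun k r => by
      rw [norm_mul, norm_ex, mul_one]
      exact JS_le (hC' r (mem_univ _) k))
    (Summable.of_norm_bounded (summable_inv_wt_two.mul_left C) fun k => by
      rw [norm_mul, norm_ex, mul_one]
      exact JS_le (hC 0 (mem_univ _) k)) t

/-- the real linear map `(s, y) ↦ s u + y v` -/
noncomputable def JS_lin (u v : ℂ) : ℝ × ℝ →L[ℝ] ℂ :=
  ContinuousLinearMap.smulRightL ℝ (ℝ × ℝ) ℂ (ContinuousLinearMap.fst ℝ ℝ ℝ) u +
    ContinuousLinearMap.smulRightL ℝ (ℝ × ℝ) ℂ (ContinuousLinearMap.snd ℝ ℝ ℝ) v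

lemma JS_lin_apply (u v : ℂ) (z : ℝ × ℝ) : JS_lin u v z = z.1 • u + z.2 • v := rfl

lemma JS_lin_norm (u v : ℂ) : ‖JS_lin u v‖ ≤ ‖u‖ + ‖v‖ := by
  refine ContinuousLinearMap.opNorm_le_bound _ (by positivity) fun z => ?_
  rw [JS_lin_apply]
  refine (norm_add_le _ _).trans ?_
  rw [norm_smul, norm_smul]
  have h1 := norm_fst_le z
  have h2 := norm_snd_le z
  have h3 := norm_nonneg u
  have h4 := norm_nonneg v
  nlinarith

lemma JS_lin_tsum {u v : ℤ → ℂ} (hu : Summable u) (hv : Summable v) :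
    ∑' k, JS_lin (u k) (v k) = JS_lin (∑' k, u k) (∑' k, v k) := by
  unfold JS_lin
  have h1 := (ContinuousLinearMap.smulRightL ℝ (ℝ × ℝ) ℂ
    (ContinuousLinearMap.fst ℝ ℝ ℝ)).map_tsum hu
  have h2 := (ContinuousLinearMap.smulRightL ℝ (ℝ × ℝ) ℂ
    (ContinuousLinearMap.snd ℝ ℝ ℝ)).map_tsum hv
  have s1 := (ContinuousLinearMap.smulRightL ℝ (ℝ × ℝ) ℂ
    (ContinuousLinearMap.fst ℝ ℝ ℝ)).summable hu
  have s2 := (ContinuousLinearMap.smulRightL ℝ (ℝ × ℝ) ℂ
    (ContinuousLinearMap.snd ℝ ℝ ℝ)).summable hv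
  rw [h1, h2]
  exact s1.tsum_add s2

lemma JS_term {c c' : ℝ → ℤ → ℂ} (h1 : ∀ t k, HasDerivAt (fun r => c r k) (c' t k) t)
    (k : ℤ) (p : ℝ × ℝ) :
    HasFDerivAt (fun q : ℝ × ℝ => c q.1 k * ex k q.2)
      (JS_lin (c' p.1 k * ex k p.2) (dx (c p.1) k * ex k p.2)) p := by
  have e1 : HasFDerivAt (fun q : ℝ × ℝ => c q.1 k) _ p :=
    (h1 p.1 k).hasFDerivAt.comp p (hasFDerivAt_fst (𝕜 := ℝ) (p := p))
  have e2 : HasFDerivAt (fun q : ℝ × ℝ => ex k q.2) _ p :=
    (JS_hasDerivAt_ex k p.2).hasFDerivAt.comp p (hasFDerivAt_snd (𝕜 := ℝ) (p := p))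
  refine (e1.mul e2).congr_fderiv ?_
  ext
  · simp [JS_lin_apply, mul_comm]
  · simp [JS_lin_apply, dx]
    ring

theorem contDiff_FS {m : ℕ} {c : ℝ → ℤ → ℂ} (h : DD m c) :
    ContDiff ℝ (m : WithTop ℕ∞) fun p : ℝ × ℝ => FS (c p.1) p.2 := by
  induction m generalizing c with
  | zero =>
    obtain ⟨C, hC⟩ := (DD.urap h) 2
    have h0 : Continuous fun p : ℝ × ℝ => FS (c p.1) p.2 := by
      refine continuous_tsum (fun k => ?_) (summable_inv_wt_two.mul_left C) (fun k p => ?_)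
      · exact ((DD.cont h k).comp continuous_fst).mul ((JS_continuous_ex k).comp continuous_snd)
      · rw [norm_mul, norm_ex, mul_one]
        exact JS_le (hC p.1 (mem_univ _) k)
    exact contDiff_zero.2 h0
  | succ m ih =>
    have hm := DD.mono h
    obtain ⟨hU, c', h1, hc'⟩ := h
    obtain ⟨C2, hC2⟩ := hU 2
    obtain ⟨C3, hC3⟩ := hU 3
    obtain ⟨C', hC'⟩ := (DD.urap hc') 2
    have hdx : DD m fun t => dx (c t) := by
      have h2 := DD.mult hm (fun k => (k : ℂ) * Complex.I) 1 1 (fun k => by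
        rw [norm_mul, Complex.norm_I, mul_one, wt_one, Complex.norm_intCast]
        linarith)
      exact h2
    have ih1 := ih hc'
    have ih2 := ih hdx
    have hF : ∀ p : ℝ × ℝ, HasFDerivAt (fun q : ℝ × ℝ => FS (c q.1) q.2)
        (JS_lin (FS (c' p.1) p.2) (FS (dx (c p.1)) p.2)) p := by
      intro p
      have key := hasFDerivAt_tsum (𝕜 := ℝ)
        (f := fun (k : ℤ) (q : ℝ × ℝ) => c q.1 k * ex k q.2)
        (f' := fun k q => JS_lin (c' q.1 k * ex k q.2) (dx (c q.1) k * ex k q.2))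
        (x₀ := (0 : ℝ × ℝ))
        ((summable_inv_wt_two.mul_left C').add (summable_inv_wt_two.mul_left C3))
        (fun k q => JS_term h1 k q)
        (fun k q => by
          refine (JS_lin_norm _ _).trans ?_
          rw [norm_mul, norm_mul, norm_ex, mul_one, mul_one]
          exact add_le_add (JS_le (hC' q.1 (mem_univ _) k)) (JS_dx_le (hC3 q.1 (mem_univ _) k)))
        (Summable.of_norm_bounded (summable_inv_wt_two.mul_left C2) fun k => by
          rw [norm_mul, norm_ex, mul_one]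
          exact JS_le (hC2 _ (mem_univ _) k)) p
      have s1 : Summable fun k => c' p.1 k * ex k p.2 :=
        Summable.of_norm_bounded (summable_inv_wt_two.mul_left C') fun k => by
          rw [norm_mul, norm_ex, mul_one]
          exact JS_le (hC' _ (mem_univ _) k)
      have s2 : Summable fun k => dx (c p.1) k * ex k p.2 :=
        Summable.of_norm_bounded (summable_inv_wt_two.mul_left C3) fun k => by
          rw [norm_mul, norm_ex, mul_one]
          exact JS_dx_le (hC3 _ (mem_univ _) k)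
      rw [JS_lin_tsum s1 s2] at key
      exact key
    refine contDiff_succ_iff_hasFDerivAt.2 ⟨_, ?_, hF⟩
    have e1 := (ContinuousLinearMap.smulRightL ℝ (ℝ × ℝ) ℂ
      (ContinuousLinearMap.fst ℝ ℝ ℝ)).contDiff (n := (m : WithTop ℕ∞)) |>.comp ih1
    have e2 := (ContinuousLinearMap.smulRightL ℝ (ℝ × ℝ) ℂ
      (ContinuousLinearMap.snd ℝ ℝ ℝ)).contDiff (n := (m : WithTop ℕ∞)) |>.comp ih2
    exact e1.add e2

end Pool.Agent.H45.DGL
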