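import Pool.Agent.H45.DGL.NLbounds

/-! JOB DL-02 (uses the stubs `BL_bound`, `NL_sub`, `BL_summable`, `BL_norm_term`).  The limit `n → ∞` of the Galerkin
solutions along an ultrafilter.

PROOF.  Let `U` be the ultrafilter `hyperfilter ℕ` (or `Ultrafilter.of atTop`), `U ≤ atTop`.
(1) For each `t ∈ Icc 0 τ`, `k` the sequence `n ↦ A n t k` is bounded, so it has a limit `a t k`
    along `U` (`IsCompact.ultrafilter_le_nhds` for `closedBall 0 C` in `ℂ`, applied to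
    `U.map (fun n => A n t k)`).  (For `t` outside put anything.)
(2) `a 0 = a0` (eventually `n ≥ |k|`), bounds and hermitian symmetry pass to the limit
    (`le_of_tendsto`, `tendsto_nhds_unique`).
(3) `NL (A n t) k → NL (a t) k` along `U`: `tendsto_tsum_of_dominated_convergence` with the bound
    `A * B * (wt 2 j)⁻¹` of `BL_norm_term` (case `s = 0`).
(4) uniform constants: `‖NL (A n t) k‖ ≤ L` (`BL_bound`, `s = 0`); by the mean value inequality
    (`Convex.norm_image_sub_le_of_norm_hasDerivWithin_le`) `‖A n t k - A n s k‖ ≤ L |t-s|` for all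
    `k` (for `|k| > n` it is `0`); `NL_sub`: `‖NL (A n t) k - NL (A n s) k‖ ≤ M_k |t-s|`; again
    the mean value inequality for `g r = A n r k - r • NL (A n s) k` on the segment between `s`
    and `t`: `‖A n t k - A n s k - (t-s) NL (A n s) k‖ ≤ M_k |t-s|²` for `n ≥ |k|`.
(5) the last inequality passes to the limit: `‖a t k - a s k - (t-s) NL (a s) k‖ ≤ M_k |t-s|²` for
    `s, t ∈ Icc 0 τ`, which gives `HasDerivWithinAt` (`hasDerivWithinAt_iff_isLittleO`, or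
    `HasDerivWithinAt.of_...`; `|t-s|² = o(|t-s|)`). -/

set_option autoImplicit false
open Real Set

namespace Pool.Agent.H45.DGL

open Filter Topology

/-- quadratic bound gives the derivative -/
lemma LM_der {f : ℝ → ℂ} {f' : ℂ} {S : Set ℝ} {x M : ℝ}
    (h : ∀ y ∈ S, ‖f y - f x - ((y - x : ℝ) : ℂ) * f'‖ ≤ M * |y - x| ^ 2) :
    HasDerivWithinAt f f' S x := by
  rw [hasDerivWithinAt_iff_isLittleO, Asymptotics.isLittleO_iff]
  intro c hc
  have hδ : 0 < c / (|M| + 1) := by positivity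
  filter_upwards [self_mem_nhdsWithin, mem_nhdsWithin_of_mem_nhds (Metric.ball_mem_nhds x hδ)]
    with y hy hb
  rw [Metric.mem_ball, Real.dist_eq] at hb
  have h1 := h y hy
  have h2 : (y - x) • f' = ((y - x : ℝ) : ℂ) * f' := Complex.real_smul
  rw [h2, Real.norm_eq_abs]
  refine h1.trans ?_
  have h3 : M * |y - x| ^ 2 ≤ (|M| + 1) * |y - x| ^ 2 := by
    refine mul_le_mul_of_nonneg_right ?_ (by positivity)
    have := le_abs_self M
    linarith
  refine h3.trans ?_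
  have h4 : (|M| + 1) * |y - x| ≤ c := by
    rw [mul_comm]
    exact ((lt_div_iff₀ (by positivity)).1 hb).le
  calc (|M| + 1) * |y - x| ^ 2 = ((|M| + 1) * |y - x|) * |y - x| := by ring
    _ ≤ c * |y - x| := mul_le_mul_of_nonneg_right h4 (abs_nonneg _)

/-- a bounded sequence has a limit along the ultrafilter -/
lemma LM_lim (u : ℕ → ℂ) (C : ℝ) (h : ∀ n, ‖u n‖ ≤ C) :
    ∃ z, Tendsto u (hyperfilter ℕ : Filter ℕ) (𝓝 z) := by
  obtain ⟨z, -, hz⟩ := (isCompact_closedBall (0 : ℂ) C).ultrafilter_le_nhds'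
    ((hyperfilter ℕ).map u) (by
      rw [Ultrafilter.mem_map]
      refine Filter.mem_of_superset Filter.univ_mem fun n _ => ?_
      show u n ∈ Metric.closedBall (0 : ℂ) C
      rw [mem_closedBall_zero_iff]
      exact h n)
  exact ⟨z, hz⟩

/-- quadratic estimate for the approximations -/
lemma LM_quad {τ : ℝ} {A : ℝ → ℤ → ℂ} {N : ℕ} {C1 C2 C3 : ℝ}
    (h1 : ∀ t ∈ Icc 0 τ, ∀ k, wt 1 k * ‖A t k‖ ≤ C1)
    (h2 : ∀ t ∈ Icc 0 τ, ∀ k, wt 2 k * ‖A t k‖ ≤ C2)
    (h3 : ∀ t ∈ Icc 0 τ, ∀ k, wt 3 k * ‖A t k‖ ≤ C3)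
    (hout : ∀ (t : ℝ) (k : ℤ), (N : ℤ) < |k| → A t k = 0)
    (hder : ∀ t ∈ Icc 0 τ, ∀ k : ℤ, |k| ≤ N →
      HasDerivWithinAt (fun r => A r k) (NL (A t) k) (Icc 0 τ) t)
    {s t : ℝ} (hs : s ∈ Icc 0 τ) (ht : t ∈ Icc 0 τ) {k : ℤ} (hk : |k| ≤ N) :
    ‖A t k - A s k - ((t - s : ℝ) : ℂ) * NL (A s) k‖ ≤
      (8 * C3 * (4 * C2 * C1) * wt 1 k) * |t - s| ^ 2 := by
  have hC1 : 0 ≤ C1 := (mul_nonneg (wt_pos 1 0).le (norm_nonneg _)).trans (h1 s hs 0)
  have hC2 : 0 ≤ C2 := (mul_nonneg (wt_pos 2 0).le (norm_nonneg _)).trans (h2 s hs 0)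
  have hC3 : 0 ≤ C3 := (mul_nonneg (wt_pos 3 0).le (norm_nonneg _)).trans (h3 s hs 0)
  have hNL : ∀ r ∈ Icc 0 τ, ∀ k, ‖NL (A r) k‖ ≤ 4 * C2 * C1 := by
    intro r hr k
    have h4 := BL_bound 0 (A r) (A r) C2 C1 (h2 r hr) (h1 r hr) k
    rw [wt_zero_left, one_mul] at h4
    exact h4
  have hlip : ∀ r ∈ Icc 0 τ, ∀ k, ‖A r k - A s k‖ ≤ 4 * C2 * C1 * |r - s| := by
    intro r hr k
    by_cases hkN : |k| ≤ N
    · have h4 := Convex.norm_image_sub_le_of_norm_hasDerivWithin_le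
        (f := fun r => A r k) (f' := fun r => NL (A r) k) (s := Icc 0 τ) (C := 4 * C2 * C1)
        (x := s) (y := r) (fun x hx => hder x hx k hkN) (fun x hx => hNL x hx k)
        (convex_Icc 0 τ) hs hr
      rw [Real.norm_eq_abs] at h4
      exact h4
    · rw [hout r k (not_le.1 hkN), hout s k (not_le.1 hkN), sub_zero, norm_zero]
      positivity
  have hsub : uIcc s t ⊆ Icc 0 τ := ordConnected_Icc.uIcc_subset hs ht
  have hw : 0 ≤ wt 1 k := (wt_pos 1 k).le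
  have key := Convex.norm_image_sub_le_of_norm_hasDerivWithin_le
    (f := fun r : ℝ => A r k - (r : ℂ) * NL (A s) k)
    (f' := fun r => NL (A r) k - 1 * NL (A s) k) (s := uIcc s t)
    (C := (8 * C3 * (4 * C2 * C1) * wt 1 k) * |t - s|) (x := s) (y := t)
    (fun x hx => by
      have e1 : HasDerivWithinAt (fun r : ℝ => (r : ℂ)) 1 (uIcc s t) x := by
        have e2 : HasDerivAt (fun y : ℝ => (y : ℂ)) 1 x := by
          simpa using (hasDerivAt_id x).ofReal_comp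
        exact e2.hasDerivWithinAt
      exact ((hder x (hsub hx) k hk).mono hsub).sub (e1.mul_const (NL (A s) k)))
    (fun x hx => by
      rw [one_mul]
      have hx' := hsub hx
      have h4 := NL_sub (A x) (A s) C3 (4 * C2 * C1 * |x - s|) (hlip x hx') (h3 x hx')
        (h3 s hs) k
      refine h4.trans ?_
      have h5 : |x - s| ≤ |t - s| := abs_sub_left_of_mem_uIcc hx
      have h6 : 0 ≤ 8 * C3 * (4 * C2 * C1) * wt 1 k := by positivity
      have h7 := mul_le_mul_of_nonneg_left h5 h6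
      linarith)
    (convex_uIcc s t) left_mem_uIcc right_mem_uIcc
  rw [Real.norm_eq_abs] at key
  have e : A t k - (t : ℂ) * NL (A s) k - (A s k - (s : ℂ) * NL (A s) k) =
      A t k - A s k - ((t - s : ℝ) : ℂ) * NL (A s) k := by
    push_cast
    ring
  rw [e] at key
  refine key.trans (le_of_eq ?_)
  ring

theorem limit_sol (τ : ℝ) (hτ : 0 < τ) (a0 : ℤ → ℂ) (A : ℕ → ℝ → ℤ → ℂ)
    (hdec : ∀ s : ℕ, ∃ C : ℝ, ∀ n, ∀ t ∈ Icc 0 τ, ∀ k, wt s k * ‖A n t k‖ ≤ C)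
    (hh : ∀ n, ∀ t ∈ Icc 0 τ, Herm (A n t))
    (h0 : ∀ (n : ℕ) (k : ℤ), |k| ≤ n → A n 0 k = a0 k)
    (hout : ∀ (n : ℕ) (t : ℝ) (k : ℤ), (n : ℤ) < |k| → A n t k = 0)
    (hder : ∀ (n : ℕ), ∀ t ∈ Icc 0 τ, ∀ k : ℤ, |k| ≤ n →
      HasDerivWithinAt (fun r => A n r k) (NL (A n t) k) (Icc 0 τ) t) :
    ∃ a : ℝ → ℤ → ℂ, a 0 = a0 ∧ FSol a 0 τ := by
  have hU : (hyperfilter ℕ : Filter ℕ) ≤ atTop := by
    rw [← Nat.cofinite_eq_atTop]
    exact hyperfilter_le_cofinite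
  have hlarge : ∀ k : ℤ, ∀ᶠ n : ℕ in (hyperfilter ℕ : Filter ℕ), |k| ≤ n := by
    intro k
    refine hU (Filter.eventually_atTop.2 ⟨k.natAbs, fun n hn => ?_⟩)
    rw [Int.abs_eq_natAbs]
    exact_mod_cast hn
  obtain ⟨C0, hC0⟩ := hdec 0
  obtain ⟨C1, hC1⟩ := hdec 1
  obtain ⟨C2, hC2⟩ := hdec 2
  obtain ⟨C3, hC3⟩ := hdec 3
  have hex : ∀ (t : ℝ) (k : ℤ), ∃ z : ℂ, t ∈ Icc 0 τ →
      Tendsto (fun n => A n t k) (hyperfilter ℕ : Filter ℕ) (𝓝 z) := by
    intro t k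
    by_cases ht : t ∈ Icc 0 τ
    · obtain ⟨z, hz⟩ := LM_lim (fun n => A n t k) C0 (fun n => by
        have h1 := hC0 n t ht k
        rw [wt_zero_left, one_mul] at h1
        exact h1)
      exact ⟨z, fun _ => hz⟩
    · exact ⟨0, fun h => absurd h ht⟩
  choose a ha using hex
  have hNL : ∀ t ∈ Icc 0 τ, ∀ k, Tendsto (fun n => NL (A n t) k) (hyperfilter ℕ : Filter ℕ)
      (𝓝 (NL (a t) k)) := by
    intro t ht k
    refine tendsto_tsum_of_dominated_convergence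
      (bound := fun j => C2 * C1 * (wt 2 j)⁻¹) (summable_inv_wt_two.mul_left _) ?_ ?_
    · intro j
      exact ((ha t j ht).mul (ha t (k - j) ht)).const_mul (ker j (k - j))
    · refine Eventually.of_forall fun n j => ?_
      have h1 := BL_norm_term 0 (A n t) (A n t) C2 C1 (hC2 n t ht) (hC1 n t ht) k j
      rw [wt_zero_left, one_mul] at h1
      exact h1
  refine ⟨a, ?_, ?_, ?_, ?_⟩
  · funext k
    have h1 := ha 0 k ⟨le_rfl, hτ.le⟩
    refine tendsto_nhds_unique h1 (tendsto_const_nhds.congr' ?_)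
    filter_upwards [hlarge k] with n hn
    exact (h0 n k hn).symm
  · intro t ht k
    refine tendsto_nhds_unique (ha t (-k) ht) ?_
    have h1 := (Complex.continuous_conj.tendsto (a t k)).comp (ha t k ht)
    refine h1.congr fun n => ?_
    exact (hh n t ht k).symm
  · intro s
    obtain ⟨C, hC⟩ := hdec s
    refine ⟨C, fun t ht k => ?_⟩
    refine le_of_tendsto ((ha t k ht).norm.const_mul (wt s k)) (Eventually.of_forall fun n => ?_)
    exact hC n t ht k
  · intro s hs k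
    refine LM_der (M := 8 * C3 * (4 * C2 * C1) * wt 1 k) fun t ht => ?_
    have h1 : Tendsto (fun n => A n t k - A n s k - ((t - s : ℝ) : ℂ) * NL (A n s) k)
        (hyperfilter ℕ : Filter ℕ) (𝓝 (a t k - a s k - ((t - s : ℝ) : ℂ) * NL (a s) k)) :=
      ((ha t k ht).sub (ha s k hs)).sub ((hNL s hs k).const_mul _)
    refine le_of_tendsto h1.norm ?_
    filter_upwards [hlarge k] with n hn
    exact LM_quad (hC1 n) (hC2 n) (hC3 n) (hout n) (hder n) hs ht hn

end Pool.Agent.H45.DGL
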