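import Pool.Agent.H45.DGL.GalerkinFam
import Pool.Agent.H45.DGL.Limit

/-! Local existence with a time that depends on the first energy only (assembly). -/

set_option autoImplicit false
open Real Set

namespace Pool.Agent.H45.DGL

theorem local_exist (R : ℝ) (hR : 0 < R) : ∃ τ : ℝ, 0 < τ ∧
    ∀ a0 : ℤ → ℂ, Herm a0 → Rap a0 → En 1 a0 ≤ R →
      ∃ a : ℝ → ℤ → ℂ, a 0 = a0 ∧ FSol a 0 τ := by
  obtain ⟨τ, hτ, h⟩ := galerkin_family R hR
  refine ⟨τ, hτ, fun a0 h1 h2 h3 => ?_⟩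
  obtain ⟨A, hA1, hA2, hA3, hA4, hA5⟩ := h a0 h1 h2 h3
  exact limit_sol τ hτ a0 A hA1 hA2 hA3 hA4 hA5

end Pool.Agent.H45.DGL
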