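import Pool.Agent.H45.DGL.Weights

/-! JOB DL-01.  Bounds for the bilinear form on rapidly decreasing sequences.

PROOF.  `‖ker j (k-j)‖ ≤ wt 1 (k-j)` (`norm_ker_le`).
* `BL_bound`: `wt s k ≤ wt s j * wt s (k-j)` (`wt_add_le_mul`), so
  `wt s k * ‖ker j (k-j) * (a j * b (k-j))‖ ≤ (wt s j ‖a j‖) (wt (s+1) (k-j) ‖b (k-j)‖)
  ≤ A * B * (wt 2 j)⁻¹`  if `wt (s+2) j ‖a j‖ ≤ A` and `wt (s+1) l ‖b l‖ ≤ B` for all `l`.
  The series is summable by comparison with `summable_inv_wt_two`, and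
  `wt s k * ‖BL a b k‖ ≤ 4 A B` by `tsum_inv_wt_two_le`.
* `NL_sub`: `a j a l - b j b l = (a j - b j) a l + b j (a l - b l)` with `l = k - j`:
  first sum `≤ Σ_j wt 1 l * D * ‖a l‖ ≤ D * C * Σ (wt 2 l)⁻¹ ≤ 4 D C` (`wt 1 l ‖a l‖ ≤ C/wt 2 l`,
  reindex `j ↦ k - j`: `Equiv.subLeft`), second: `wt 1 (k-j) ≤ wt 1 k * wt 1 j`
  (`wt_sub_le_mul`): `≤ Σ_j wt 1 k wt 1 j ‖b j‖ D ≤ 4 wt 1 k C D`.  -/

set_option autoImplicit false
open Real Set

namespace Pool.Agent.H45.DGL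

lemma BL_norm_term (s : ℕ) (a b : ℤ → ℂ) (A B : ℝ) (hA : ∀ k, wt (s + 2) k * ‖a k‖ ≤ A)
    (hB : ∀ k, wt (s + 1) k * ‖b k‖ ≤ B) (k j : ℤ) :
    wt s k * ‖ker j (k - j) * (a j * b (k - j))‖ ≤ A * B * (wt 2 j)⁻¹ := by
  have h1 : wt s k ≤ wt s j * wt s (k - j) := by
    have := wt_add_le_mul s j (k - j)
    simpa using this
  have h2 := norm_ker_le j (k - j)
  have hAj : wt s j * ‖a j‖ ≤ A * (wt 2 j)⁻¹ := by
    rw [← div_eq_mul_inv, le_div_iff₀ (wt_pos 2 j)]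
    have := hA j
    rw [wt_add_left] at this
    linarith [this, mul_comm (wt s j * ‖a j‖) (wt 2 j), mul_assoc (wt s j) (wt 2 j) ‖a j‖,
      mul_right_comm (wt s j) ‖a j‖ (wt 2 j)]
  have hBl : wt s (k - j) * wt 1 (k - j) * ‖b (k - j)‖ ≤ B := by
    have := hB (k - j)
    rwa [wt_add_left] at this
  have hA0 : 0 ≤ A * (wt 2 j)⁻¹ := le_trans (mul_nonneg (wt_pos s j).le (norm_nonneg _)) hAj
  rw [norm_mul, norm_mul]
  calc wt s k * (‖ker j (k - j)‖ * (‖a j‖ * ‖b (k - j)‖))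
      ≤ (wt s j * wt s (k - j)) * (wt 1 (k - j) * (‖a j‖ * ‖b (k - j)‖)) := by
        have := (wt_pos s j).le
        have := (wt_pos s (k - j)).le
        gcongr
    _ = (wt s j * ‖a j‖) * (wt s (k - j) * wt 1 (k - j) * ‖b (k - j)‖) := by ring
    _ ≤ (A * (wt 2 j)⁻¹) * B := by
        refine mul_le_mul hAj hBl ?_ hA0
        have := (wt_pos s (k - j)).le
        have := (wt_pos 1 (k - j)).le
        positivity
    _ = A * B * (wt 2 j)⁻¹ := by ring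

lemma BL_summable (a b : ℤ → ℂ) (A B : ℝ) (hA : ∀ k, wt 2 k * ‖a k‖ ≤ A)
    (hB : ∀ k, wt 1 k * ‖b k‖ ≤ B) (k : ℤ) :
    Summable fun j : ℤ => ker j (k - j) * (a j * b (k - j)) := by
  refine Summable.of_norm_bounded (g := fun j : ℤ => A * B * (wt 2 j)⁻¹)
    (summable_inv_wt_two.mul_left _) fun j => ?_
  have := BL_norm_term 0 a b A B (by simpa using hA) (by simpa using hB) k j
  rwa [wt_zero_left, one_mul] at this

lemma BL_bound (s : ℕ) (a b : ℤ → ℂ) (A B : ℝ) (hA : ∀ k, wt (s + 2) k * ‖a k‖ ≤ A)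
    (hB : ∀ k, wt (s + 1) k * ‖b k‖ ≤ B) (k : ℤ) :
    wt s k * ‖BL a b k‖ ≤ 4 * A * B := by
  have hA0 : 0 ≤ A := le_trans (mul_nonneg (wt_pos _ _).le (norm_nonneg _)) (hA 0)
  have hB0 : 0 ≤ B := le_trans (mul_nonneg (wt_pos _ _).le (norm_nonneg _)) (hB 0)
  have hterm : ∀ j : ℤ, ‖ker j (k - j) * (a j * b (k - j))‖ ≤ (wt s k)⁻¹ * (A * B) * (wt 2 j)⁻¹ := by
    intro j
    have h := BL_norm_term s a b A B hA hB k j
    rw [mul_comm, ← le_div_iff₀ (wt_pos s k)] at h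
    refine h.trans (le_of_eq ?_)
    rw [div_eq_mul_inv]; ring
  have hsum : Summable fun j : ℤ => (wt s k)⁻¹ * (A * B) * (wt 2 j)⁻¹ :=
    summable_inv_wt_two.mul_left _
  have h1 : ‖BL a b k‖ ≤ (wt s k)⁻¹ * (A * B) * ∑' j : ℤ, (wt 2 j)⁻¹ := by
    unfold BL
    rw [← tsum_mul_left]
    exact tsum_of_norm_bounded hsum.hasSum hterm
  have h2 : (wt s k)⁻¹ * (A * B) * ∑' j : ℤ, (wt 2 j)⁻¹ ≤ (wt s k)⁻¹ * (A * B) * 4 := by
    have : 0 ≤ (wt s k)⁻¹ := inv_nonneg.mpr (wt_pos s k).le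
    exact mul_le_mul_of_nonneg_left tsum_inv_wt_two_le (by positivity)
  calc wt s k * ‖BL a b k‖ ≤ wt s k * ((wt s k)⁻¹ * (A * B) * 4) :=
        mul_le_mul_of_nonneg_left (h1.trans h2) (wt_pos s k).le
    _ = 4 * A * B := by
        have := (wt_pos s k).ne'
        field_simp

lemma NL_sub (a b : ℤ → ℂ) (C D : ℝ) (hD : ∀ k, ‖a k - b k‖ ≤ D)
    (ha : ∀ k, wt 3 k * ‖a k‖ ≤ C) (hb : ∀ k, wt 3 k * ‖b k‖ ≤ C) (k : ℤ) :
    ‖NL a k - NL b k‖ ≤ 8 * C * D * wt 1 k := by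
  have hC0 : 0 ≤ C := le_trans (mul_nonneg (wt_pos _ _).le (norm_nonneg _)) (ha 0)
  have hD0 : 0 ≤ D := (norm_nonneg _).trans (hD 0)
  have hsumm : ∀ c : ℤ → ℂ, (∀ k, wt 3 k * ‖c k‖ ≤ C) →
      Summable fun j : ℤ => ker j (k - j) * (c j * c (k - j)) := by
    intro c hc
    refine BL_summable c c C C (fun k => ?_) (fun k => ?_) k
    · exact (mul_le_mul_of_nonneg_right (wt_mono (by norm_num) k) (norm_nonneg _)).trans (hc k)
    · exact (mul_le_mul_of_nonneg_right (wt_mono (by norm_num) k) (norm_nonneg _)).trans (hc k)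
  have hw : ∀ c : ℤ → ℂ, (∀ k, wt 3 k * ‖c k‖ ≤ C) → ∀ l, wt 1 l * ‖c l‖ ≤ C * (wt 2 l)⁻¹ := by
    intro c hc l
    rw [← div_eq_mul_inv, le_div_iff₀ (wt_pos 2 l)]
    have h := hc l
    have e : wt 3 l = wt 1 l * wt 2 l := wt_add_left 1 2 l
    rw [e] at h
    linarith [mul_right_comm (wt 1 l) (wt 2 l) ‖c l‖]
  have hterm : ∀ j : ℤ, ‖ker j (k - j) * (a j * a (k - j)) - ker j (k - j) * (b j * b (k - j))‖ ≤
      D * C * (wt 2 (k - j))⁻¹ + wt 1 k * (C * D) * (wt 2 j)⁻¹ := by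
    intro j
    have e : ker j (k - j) * (a j * a (k - j)) - ker j (k - j) * (b j * b (k - j)) =
        ker j (k - j) * ((a j - b j) * a (k - j)) + ker j (k - j) * (b j * (a (k - j) - b (k - j))) := by
      ring
    rw [e]
    refine (norm_add_le _ _).trans (add_le_add ?_ ?_)
    · rw [norm_mul, norm_mul]
      calc ‖ker j (k - j)‖ * (‖a j - b j‖ * ‖a (k - j)‖)
          ≤ wt 1 (k - j) * (D * ‖a (k - j)‖) := by
            have := norm_ker_le j (k - j)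
            have := hD j
            have := (wt_pos 1 (k - j)).le
            gcongr
        _ = D * (wt 1 (k - j) * ‖a (k - j)‖) := by ring
        _ ≤ D * (C * (wt 2 (k - j))⁻¹) := mul_le_mul_of_nonneg_left (hw a ha (k - j)) hD0
        _ = D * C * (wt 2 (k - j))⁻¹ := by ring
    · rw [norm_mul, norm_mul]
      calc ‖ker j (k - j)‖ * (‖b j‖ * ‖a (k - j) - b (k - j)‖)
          ≤ (wt 1 k * wt 1 j) * (‖b j‖ * D) := by
            have h1 := (norm_ker_le j (k - j)).trans (wt_sub_le_mul 1 k j)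
            have := hD (k - j)
            have := (wt_pos 1 k).le
            have := (wt_pos 1 j).le
            gcongr
        _ = wt 1 k * D * (wt 1 j * ‖b j‖) := by ring
        _ ≤ wt 1 k * D * (C * (wt 2 j)⁻¹) := by
            have := (wt_pos 1 k).le
            exact mul_le_mul_of_nonneg_left (hw b hb j) (by positivity)
        _ = wt 1 k * (C * D) * (wt 2 j)⁻¹ := by ring
  have hs1 : HasSum (fun j : ℤ => (wt 2 (k - j))⁻¹) (∑' l : ℤ, (wt 2 l)⁻¹) :=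
    (Equiv.subLeft k).hasSum_iff.mpr summable_inv_wt_two.hasSum
  have hs : HasSum (fun j : ℤ => D * C * (wt 2 (k - j))⁻¹ + wt 1 k * (C * D) * (wt 2 j)⁻¹)
      (D * C * (∑' l : ℤ, (wt 2 l)⁻¹) + wt 1 k * (C * D) * ∑' l : ℤ, (wt 2 l)⁻¹) :=
    (hs1.mul_left _).add (summable_inv_wt_two.hasSum.mul_left _)
  have h1 : ‖NL a k - NL b k‖ ≤ D * C * (∑' l : ℤ, (wt 2 l)⁻¹) +
      wt 1 k * (C * D) * ∑' l : ℤ, (wt 2 l)⁻¹ := by
    unfold NL BL
    rw [← (hsumm a ha).tsum_sub (hsumm b hb)]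
    exact tsum_of_norm_bounded hs hterm
  have h4 := tsum_inv_wt_two_le
  have hw1 := one_le_wt 1 k
  have hCD : 0 ≤ C * D := mul_nonneg hC0 hD0
  calc ‖NL a k - NL b k‖ ≤ D * C * (∑' l : ℤ, (wt 2 l)⁻¹) +
      wt 1 k * (C * D) * ∑' l : ℤ, (wt 2 l)⁻¹ := h1
    _ ≤ D * C * 4 + wt 1 k * (C * D) * 4 := by
        have : 0 ≤ wt 1 k := (wt_pos 1 k).le
        have e1 := mul_le_mul_of_nonneg_left h4 (show 0 ≤ D * C by positivity)
        have e2 := mul_le_mul_of_nonneg_left h4 (show 0 ≤ wt 1 k * (C * D) by positivity)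
        linarith
    _ ≤ 8 * C * D * wt 1 k := by nlinarith

/-- the nonlinearity preserves hermitian symmetry -/
lemma NL_herm (a : ℤ → ℂ) (h : Herm a) : Herm (NL a) := by
  intro k
  unfold NL BL
  rw [Complex.conj_tsum, ← (Equiv.neg ℤ).tsum_eq]
  congr 1
  funext j
  simp only [Equiv.neg_apply, map_mul]
  have e : -k - -j = -(k - j) := by ring
  rw [e, ker_neg, h j, h (k - j)]

/-- the nonlinearity is quadratic -/
lemma NL_neg (a : ℤ → ℂ) (k : ℤ) : NL (fun k => -a k) k = NL a k := by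
  unfold NL BL
  congr 1; funext j; ring

end Pool.Agent.H45.DGL
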