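import Pool.Agent.H45.DGL.FourierInt
import Pool.Agent.H51.DG.Defs

/-! JOB DL-15 (uses the stubs `int_FS`, `FS_herm`, `FS_hasDerivAt_x`, `Rap_dx`, `Herm_dx`,
`summable_of_Rap`).  Energies and `H^1` norms.

PROOF of `parseval`: `(FS c x).re ^2 = FS c x * FS c x` (as complex number, `FS_herm`)
`= Σ_k c k (FS c x * ex k x)`, integrate (interchange as in `int_FS`; bound `‖c k‖ Σ‖c‖`):
`∫ = Σ_k c k * 2π c (-k) = 2π Σ_k ‖c k‖²` (`int_FS` with `m = -k`; `c (-k) = conj (c k)`,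
`Complex.mul_conj`, `normSq`).
`En_le_H1`: `wt 1 k ^2 = (1+|k|)² ≤ 2 (1 + k²)`, so
`En 1 c ≤ 2 Σ ‖c k‖² + 2 Σ ‖dx c k‖² = (1/π) (∫ f² + ∫ (f')²)`, where `f = Re FS c`,
`deriv f = Re FS (dx c)` (`FS_hasDerivAt_x`, `HasDerivAt.re`-type lemma via `Complex.reCLM`). -/

set_option autoImplicit false
open Real Set MeasureTheory

namespace Pool.Agent.H45.DGL

lemma Parseval_norm_FS_le (c : ℤ → ℂ) (h : Rap c) (x : ℝ) : ‖FS c x‖ ≤ ∑' k, ‖c k‖ := by
  have h1 : ∀ k, ‖c k * ex k x‖ = ‖c k‖ := fun k => by rw [norm_mul, norm_ex, mul_one]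
  have hs : Summable fun k => ‖c k * ex k x‖ := by
    simp only [h1]; exact summable_of_Rap c h
  calc ‖FS c x‖ ≤ ∑' k, ‖c k * ex k x‖ := norm_tsum_le_tsum_norm hs
    _ = ∑' k, ‖c k‖ := by simp only [h1]

lemma Parseval_cont (c : ℤ → ℂ) (h : Rap c) : Continuous (FS c) :=
  continuous_iff_continuousAt.2 fun x => (FS_hasDerivAt_x c h x).continuousAt

lemma Parseval_cont_ex (k : ℤ) : Continuous (ex k) := by
  unfold ex; fun_prop

lemma Parseval_summable_sq (c : ℤ → ℂ) (h : Rap c) : Summable fun k => ‖c k‖ ^ 2 := by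
  obtain ⟨C, hC⟩ := h 0
  refine Summable.of_nonneg_of_le (fun k => by positivity) (fun k => ?_)
    ((summable_of_Rap c h).mul_left C)
  have h1 := hC k
  rw [wt_zero_left, one_mul] at h1
  rw [sq]
  exact mul_le_mul_of_nonneg_right h1 (norm_nonneg _)

lemma parseval (c : ℤ → ℂ) (h : Rap c) (hh : Herm c) :
    ∫ x in (0:ℝ)..(2 * π), ((FS c x).re) ^ 2 = 2 * π * ∑' k, ‖c k‖ ^ 2 := by
  have hcont := Parseval_cont c h
  have h1 : ∀ x : ℝ, ((((FS c x).re) ^ 2 : ℝ) : ℂ) = FS c x * FS c x := by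
    intro x
    rw [Complex.ofReal_pow, FS_herm c hh x, sq]
  have hsum : HasSum (fun k => ∫ x in (0:ℝ)..(2 * π), c k * (FS c x * ex k x))
      (∫ x in (0:ℝ)..(2 * π), FS c x * FS c x) := by
    refine intervalIntegral.hasSum_integral_of_dominated_convergence
      (fun k _ => ‖c k‖ * ∑' j, ‖c j‖) (fun k => ?_) (fun k => ?_) ?_ ?_ ?_
    · exact (continuous_const.mul (hcont.mul (Parseval_cont_ex k))).aestronglyMeasurable
    · refine Filter.Eventually.of_forall fun x _ => ?_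
      rw [norm_mul, norm_mul, norm_ex, mul_one]
      exact mul_le_mul_of_nonneg_left (Parseval_norm_FS_le c h x) (norm_nonneg _)
    · exact Filter.Eventually.of_forall fun x _ => (summable_of_Rap c h).mul_right _
    · exact intervalIntegrable_const
    · refine Filter.Eventually.of_forall fun x _ => ?_
      have hs : Summable fun k => c k * ex k x := by
        refine Summable.of_norm ?_
        have : ∀ k, ‖c k * ex k x‖ = ‖c k‖ := fun k => by rw [norm_mul, norm_ex, mul_one]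
        simp only [this]; exact summable_of_Rap c h
      have h2 := hs.hasSum.mul_left (FS c x)
      have h3 : (fun k => FS c x * (c k * ex k x)) = fun k => c k * (FS c x * ex k x) := by
        funext k; ring
      rw [h3] at h2
      exact h2
  have h4 : ∀ k, ∫ x in (0:ℝ)..(2 * π), c k * (FS c x * ex k x) =
      (((2 * π * ‖c k‖ ^ 2 : ℝ)) : ℂ) := by
    intro k
    rw [intervalIntegral.integral_const_mul]
    have h5 := int_FS c h (-k)
    rw [neg_neg] at h5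
    rw [h5, hh k]
    have h6 : c k * (2 * (π : ℂ) * (starRingEnd ℂ) (c k)) =
        2 * (π : ℂ) * (c k * (starRingEnd ℂ) (c k)) := by ring
    rw [h6, Complex.mul_conj, Complex.normSq_eq_norm_sq]
    push_cast
    ring
  simp only [h4] at hsum
  have h7 : (((∫ x in (0:ℝ)..(2 * π), ((FS c x).re) ^ 2 : ℝ)) : ℂ) =
      ∫ x in (0:ℝ)..(2 * π), FS c x * FS c x := by
    rw [← intervalIntegral.integral_ofReal]
    simp only [h1]
  rw [← h7] at hsum
  have h8 := Complex.hasSum_ofReal.1 hsum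
  rw [← h8.tsum_eq, tsum_mul_left]

lemma deriv_re_FS (c : ℤ → ℂ) (h : Rap c) (x : ℝ) :
    HasDerivAt (fun y => (FS c y).re) (FS (dx c) x).re x :=
  Complex.reCLM.hasFDerivAt.comp_hasDerivAt x (FS_hasDerivAt_x c h x)

theorem En_le_H1 (c : ℤ → ℂ) (h : Rap c) (hh : Herm c) :
    En 1 c ≤ (1 / π) * Pool.Agent.H51.DG.H1 (fun x => (FS c x).re) := by
  have hd : deriv (fun x => (FS c x).re) = fun x => (FS (dx c) x).re :=
    funext fun x => (deriv_re_FS c h x).deriv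
  unfold Pool.Agent.H51.DG.H1
  rw [hd, parseval c h hh, parseval (dx c) (Rap_dx c h) (Herm_dx c hh)]
  have hs0 := Parseval_summable_sq c h
  have hs1 := Parseval_summable_sq (dx c) (Rap_dx c h)
  have e1 : (1 / π) * (2 * π * ∑' k, ‖c k‖ ^ 2 + 2 * π * ∑' k, ‖dx c k‖ ^ 2) =
      ∑' k, (2 * ‖c k‖ ^ 2 + 2 * ‖dx c k‖ ^ 2) := by
    rw [(hs0.mul_left 2).tsum_add (hs1.mul_left 2), tsum_mul_left, tsum_mul_left]
    field_simp
  rw [e1]
  have hle : ∀ k, wt 1 k ^ 2 * ‖c k‖ ^ 2 ≤ 2 * ‖c k‖ ^ 2 + 2 * ‖dx c k‖ ^ 2 := by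
    intro k
    have h1 : ‖dx c k‖ ^ 2 = (k : ℝ) ^ 2 * ‖c k‖ ^ 2 := by
      unfold dx
      rw [norm_mul, norm_mul, Complex.norm_I, mul_one, mul_pow, Complex.norm_intCast, sq_abs]
    rw [h1, wt_one]
    have h2 : (1 + |(k : ℝ)|) ^ 2 ≤ 2 + 2 * (k : ℝ) ^ 2 := by
      have := sq_abs (k : ℝ)
      nlinarith [sq_nonneg (1 - |(k : ℝ)|)]
    nlinarith [mul_le_mul_of_nonneg_right h2 (sq_nonneg ‖c k‖)]
  have hsR := (hs0.mul_left 2).add (hs1.mul_left 2)
  have hsL : Summable fun k => wt 1 k ^ 2 * ‖c k‖ ^ 2 :=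
    Summable.of_nonneg_of_le (fun k => by positivity) hle hsR
  exact hsL.tsum_le_tsum hle hsR

end Pool.Agent.H45.DGL
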