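import Pool.Agent.H45.DGL.TimeRegBL
import Pool.Agent.H45.DGL.JointSmooth
import Pool.Agent.H45.DGL.Chi

/-! JOB DL-09 (uses the stubs `chi_exists`, `DD.BL`, `DD.smul`, `DD.cont`).

PROOF.  `ε = min (α' - α) (β - β') / 2 > 0`, `χ, ρ` from `chi_exists α' β' ε`; `c t = a (χ t)`.
`χ t ∈ [α'-ε, β'+ε] ⊆ Ioo α β`, so `HasDerivAt (fun r => a r k) (NL (a s) k) s` at `s = χ t`
(`HasDerivWithinAt.hasDerivAt` with `Icc_mem_nhds`), and by the chain rule
`HasDerivAt (fun r => c r k) (ρ t * NL (c t) k) t`.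
`∀ m, DD m c` by induction: `m = 0`: `URap univ c` from `h.rap` and continuity from the
derivative; step: the derivative family is `ρ * BL c c`, in `DD m` by `DD.BL` and `DD.smul`.
On `[α',β']`: `ρ = 1`, `χ t = t`. -/

set_option autoImplicit false
open Real Set

namespace Pool.Agent.H45.DGL

theorem FSol.extend {a : ℝ → ℤ → ℂ} {α β : ℝ} (h : FSol a α β) (α' β' : ℝ) (h1 : α < α')
    (h2 : α' ≤ β') (h3 : β' < β) :
    ∃ c : ℝ → ℤ → ℂ, (∀ m, DD m c) ∧ (∀ t, Herm (c t)) ∧ (∀ t ∈ Icc α' β', c t = a t) ∧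
      (∃ c' : ℝ → ℤ → ℂ, URap univ c' ∧ (∀ t k, HasDerivAt (fun r => c r k) (c' t k) t) ∧
        ∀ t ∈ Icc α' β', ∀ k, c' t k = NL (c t) k) := by
  obtain ⟨ε, hε, hε1, hε2⟩ : ∃ ε : ℝ, 0 < ε ∧ α < α' - ε ∧ β' + ε < β := by
    have m1 := min_le_left (α' - α) (β - β')
    have m2 := min_le_right (α' - α) (β - β')
    have m3 : 0 < min (α' - α) (β - β') := lt_min (by linarith) (by linarith)
    exact ⟨min (α' - α) (β - β') / 2, by linarith, by linarith, by linarith⟩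
  obtain ⟨χ, ρ, hρ, hs, hχ, hid, hran⟩ := chi_exists α' β' ε h2 hε
  have hIoo : ∀ t, χ t ∈ Ioo α β := fun t =>
    ⟨lt_of_lt_of_le hε1 (hran t).1, lt_of_le_of_lt (hran t).2 hε2⟩
  have hIcc : ∀ t, χ t ∈ Icc α β := fun t => Ioo_subset_Icc_self (hIoo t)
  have hder : ∀ t k, HasDerivAt (fun r => a (χ r) k) (((ρ t : ℝ) : ℂ) * NL (a (χ t)) k) t := by
    intro t k
    have e1 : HasDerivAt (fun r => a r k) (NL (a (χ t)) k) (χ t) :=
      (h.der (χ t) (hIcc t) k).hasDerivAt (Icc_mem_nhds (hIoo t).1 (hIoo t).2)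
    have e2 := HasDerivAt.scomp t e1 (hχ t)
    rw [Complex.real_smul] at e2
    exact e2
  have hU : URap univ (fun t => a (χ t)) := by
    intro s
    obtain ⟨C, hC⟩ := h.rap s
    exact ⟨C, fun t _ k => hC (χ t) (hIcc t) k⟩
  have hDD : ∀ m, DD m (fun t => a (χ t)) := by
    intro m
    induction m with
    | zero =>
      refine ⟨hU, fun k => ?_⟩
      exact continuous_iff_continuousAt.2 fun t => (hder t k).continuousAt
    | succ m ih =>
      exact ⟨hU, _, hder, (DD.BL ih ih).smul ρ hρ hs⟩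
  have hDD' : DD 0 (fun t k => ((ρ t : ℝ) : ℂ) * NL (a (χ t)) k) :=
    (DD.BL (hDD 0) (hDD 0)).smul ρ hρ hs
  refine ⟨fun t => a (χ t), hDD, fun t => h.herm _ (hIcc t), fun t ht => ?_,
    fun t k => ((ρ t : ℝ) : ℂ) * NL (a (χ t)) k, hDD'.urap, hder, fun t ht k => ?_⟩
  · show a (χ t) = a t
    rw [(hid t ht).2]
  · show ((ρ t : ℝ) : ℂ) * NL (a (χ t)) k = NL (a (χ t)) k
    rw [(hid t ht).1, Complex.ofReal_one, one_mul]

end Pool.Agent.H45.DGL
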