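import Pool.Agent.H45.DGL.NLbounds

/-! JOB DL-04.  Closure properties of the class `DD m` (everything except the bilinear form).

All by induction on `m`, generalising over the sequences.
* `DD.urap`, `DD.cont`: the components (for `m+1`: differentiable implies continuous).
* `DD.mono`: `DD (m+1) c → DD m c`.
* `DD.add`: constants add up; `HasDerivAt.add`.
* `DD.mult`: multiplication by `p k` with `‖p k‖ ≤ K * wt r k` (`wt s * wt r = wt (s+r)`:
  `wt_add_left`).
* `DD.smul`: multiplication by a smooth compactly supported scalar function `ρ t` (bounded because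
  continuous with compact support); `(ρ c)' = ρ' c + ρ c'`, `deriv ρ` is again smooth with compact
  support (`HasCompactSupport.deriv`, `ContDiff` of `deriv`), use `DD.add` and the induction
  hypothesis for both summands (`DD.mono` for `c`). -/

set_option autoImplicit false
open Real Set

namespace Pool.Agent.H45.DGL

lemma DD.urap {m : ℕ} {c : ℝ → ℤ → ℂ} (h : DD m c) : URap univ c := by
  cases m <;> exact h.1

lemma DD.cont {m : ℕ} {c : ℝ → ℤ → ℂ} (h : DD m c) (k : ℤ) : Continuous fun t => c t k := by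
  cases m with
  | zero => exact h.2 k
  | succ m =>
    obtain ⟨_, c', hc', _⟩ := h
    exact continuous_iff_continuousAt.2 fun t => (hc' t k).continuousAt

lemma DD.mono {m : ℕ} {c : ℝ → ℤ → ℂ} (h : DD (m + 1) c) : DD m c := by
  induction m generalizing c with
  | zero => exact ⟨DD.urap h, DD.cont h⟩
  | succ m ih =>
    obtain ⟨hu, c', hc', hd⟩ := h
    exact ⟨hu, c', hc', ih hd⟩

private lemma URap_add_aux {c d : ℝ → ℤ → ℂ} (hc : URap univ c) (hd : URap univ d) :
    URap univ fun t k => c t k + d t k := by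
  intro s
  obtain ⟨C, hC⟩ := hc s
  obtain ⟨D, hD⟩ := hd s
  refine ⟨C + D, fun t ht k => ?_⟩
  have h1 := hC t ht k
  have h2 := hD t ht k
  have h3 := norm_add_le (c t k) (d t k)
  have hw := wt_pos s k
  nlinarith [mul_le_mul_of_nonneg_left h3 hw.le]

private lemma URap_mult_aux {c : ℝ → ℤ → ℂ} (hc : URap univ c) (p : ℤ → ℂ) (K : ℝ) (r : ℕ)
    (hp : ∀ k, ‖p k‖ ≤ K * wt r k) : URap univ fun t k => p k * c t k := by
  intro s
  obtain ⟨C, hC⟩ := hc (s + r)
  have hK : 0 ≤ K := by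
    have h0 := hp 0
    have hw : 0 < wt r 0 := wt_pos r 0
    have : 0 ≤ K * wt r 0 := le_trans (norm_nonneg _) h0
    by_contra hneg
    push Not at hneg
    nlinarith
  refine ⟨K * C, fun t ht k => ?_⟩
  have h1 := hC t ht k
  rw [wt_add_left] at h1
  rw [norm_mul]
  have h2 := hp k
  have hw := wt_pos s k
  calc wt s k * (‖p k‖ * ‖c t k‖) ≤ wt s k * (K * wt r k * ‖c t k‖) := by gcongr
    _ = K * (wt s k * wt r k * ‖c t k‖) := by ring
    _ ≤ K * C := by gcongr

private lemma URap_smul_aux {c : ℝ → ℤ → ℂ} (hc : URap univ c) (ρ : ℝ → ℝ) (M : ℝ)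
    (hM : ∀ t, |ρ t| ≤ M) : URap univ fun t k => ((ρ t : ℝ) : ℂ) * c t k := by
  intro s
  obtain ⟨C, hC⟩ := hc s
  have hM0 : 0 ≤ M := le_trans (abs_nonneg _) (hM 0)
  refine ⟨M * C, fun t ht k => ?_⟩
  have h1 := hC t ht k
  rw [norm_mul, Complex.norm_real, Real.norm_eq_abs]
  have hw := wt_pos s k
  calc wt s k * (|ρ t| * ‖c t k‖) = |ρ t| * (wt s k * ‖c t k‖) := by ring
    _ ≤ M * C := by
      have := hM t
      have h0 : 0 ≤ wt s k * ‖c t k‖ := by positivity
      gcongr

lemma DD.add {m : ℕ} {c d : ℝ → ℤ → ℂ} (hc : DD m c) (hd : DD m d) :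
    DD m fun t k => c t k + d t k := by
  induction m generalizing c d with
  | zero => exact ⟨URap_add_aux (DD.urap hc) (DD.urap hd), fun k => (hc.2 k).add (hd.2 k)⟩
  | succ m ih =>
    obtain ⟨hu, c', hc', hcd⟩ := hc
    obtain ⟨hv, d', hd', hdd⟩ := hd
    exact ⟨URap_add_aux hu hv, fun t k => c' t k + d' t k, fun t k => (hc' t k).add (hd' t k),
      ih hcd hdd⟩

lemma DD.mult {m : ℕ} {c : ℝ → ℤ → ℂ} (hc : DD m c) (p : ℤ → ℂ) (K : ℝ) (r : ℕ)
    (hp : ∀ k, ‖p k‖ ≤ K * wt r k) : DD m fun t k => p k * c t k := by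
  induction m generalizing c with
  | zero => exact ⟨URap_mult_aux (DD.urap hc) p K r hp, fun k => (hc.2 k).const_mul (p k)⟩
  | succ m ih =>
    obtain ⟨hu, c', hc', hcd⟩ := hc
    exact ⟨URap_mult_aux hu p K r hp, fun t k => p k * c' t k,
      fun t k => (hc' t k).const_mul (p k), ih hcd⟩

lemma DD.smul {m : ℕ} {c : ℝ → ℤ → ℂ} (hc : DD m c) (ρ : ℝ → ℝ)
    (hρ : ContDiff ℝ ((⊤ : ℕ∞) : WithTop ℕ∞) ρ) (hs : HasCompactSupport ρ) :
    DD m fun t k => ((ρ t : ℝ) : ℂ) * c t k := by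
  induction m generalizing c ρ with
  | zero =>
    obtain ⟨M, hM⟩ := hs.exists_bound_of_continuous hρ.continuous
    exact ⟨URap_smul_aux (DD.urap hc) ρ M hM,
      fun k => (Complex.continuous_ofReal.comp hρ.continuous).mul (hc.2 k)⟩
  | succ m ih =>
    obtain ⟨M, hM⟩ := hs.exists_bound_of_continuous hρ.continuous
    have hcm := DD.mono hc
    obtain ⟨hu, c', hc', hcd⟩ := hc
    have hρ' : ContDiff ℝ ((⊤ : ℕ∞) : WithTop ℕ∞) (deriv ρ) := by
      have := (contDiff_infty_iff_deriv (f := ρ)).1 hρ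
      exact this.2
    have h1 := ih hcm (deriv ρ) hρ' hs.deriv
    have h2 := ih hcd ρ hρ hs
    refine ⟨URap_smul_aux hu ρ M hM,
      fun t k => ((deriv ρ t : ℝ) : ℂ) * c t k + ((ρ t : ℝ) : ℂ) * c' t k, fun t k => ?_,
      DD.add h1 h2⟩
    have hd : HasDerivAt ρ (deriv ρ t) t :=
      (hρ.differentiable (by simp) t).hasDerivAt
    exact hd.ofReal_comp.mul (hc' t k)

end Pool.Agent.H45.DGL
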