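import Pool.Agent.H45.DGL.TimeReg

/-! JOB DL-05 (uses the stubs `BL_bound`, `BL_norm_term`, `BL_summable`, `DD.add`, `DD.mono`).
The class `DD m` is closed under the bilinear form.

PROOF by induction on `m` (generalising `c d`).  `URap`: `BL_bound`.
`m = 0`: continuity of `t ↦ BL (c t) (d t) k`: `continuous_tsum` with the bound
`A * B * (wt 2 j)⁻¹` (`BL_norm_term`, `s = 0`, the constants of `URap univ`).
`m+1`: `HasDerivAt (fun t => BL (c t) (d t) k) (BL (c' t) (d t) k + BL (c t) (d' t) k) t`: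
`hasDerivAt_tsum` with the terms `ker j (k-j) * (c' t j * d t (k-j) + c t j * d' t (k-j))`
bounded by `(A' B + A B') * (wt 2 j)⁻¹` (note: `c'`, `d'` satisfy `DD m`, so `URap univ`), and
split of the `tsum` (`Summable.tsum_add` with `BL_summable`).  Then `DD m` of the derivative by
the induction hypothesis, `DD.mono` and `DD.add`. -/

set_option autoImplicit false
open Real Set

namespace Pool.Agent.H45.DGL

private lemma trBL_term (c d : ℝ → ℤ → ℂ) (A B : ℝ) (hA : ∀ t ∈ (univ : Set ℝ), ∀ k, wt 2 k * ‖c t k‖ ≤ A)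
    (hB : ∀ t ∈ (univ : Set ℝ), ∀ k, wt 1 k * ‖d t k‖ ≤ B) (t : ℝ) (k j : ℤ) :
    ‖ker j (k - j) * (c t j * d t (k - j))‖ ≤ A * B * (wt 2 j)⁻¹ := by
  have := BL_norm_term 0 (c t) (d t) A B (fun l => by simpa using hA t (mem_univ t) l)
    (fun l => by simpa using hB t (mem_univ t) l) k j
  rwa [wt_zero_left, one_mul] at this

lemma BL_hasDerivAt (c d c' d' : ℝ → ℤ → ℂ) (hc : URap univ c) (hd : URap univ d)
    (hc' : URap univ c') (hd' : URap univ d')
    (h1 : ∀ t k, HasDerivAt (fun r => c r k) (c' t k) t)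
    (h2 : ∀ t k, HasDerivAt (fun r => d r k) (d' t k) t) (t : ℝ) (k : ℤ) :
    HasDerivAt (fun r => BL (c r) (d r) k) (BL (c' t) (d t) k + BL (c t) (d' t) k) t := by
  obtain ⟨A, hA⟩ := hc 2
  obtain ⟨B, hB⟩ := hd 1
  obtain ⟨A', hA'⟩ := hc' 2
  obtain ⟨B', hB'⟩ := hd' 1
  have hs1 : Summable fun j : ℤ => ker j (k - j) * (c' t j * d t (k - j)) :=
    BL_summable (c' t) (d t) A' B (hA' t (mem_univ t)) (hB t (mem_univ t)) k
  have hs2 : Summable fun j : ℤ => ker j (k - j) * (c t j * d' t (k - j)) :=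
    BL_summable (c t) (d' t) A B' (hA t (mem_univ t)) (hB' t (mem_univ t)) k
  have hs0 : Summable fun j : ℤ => ker j (k - j) * (c t j * d t (k - j)) :=
    BL_summable (c t) (d t) A B (hA t (mem_univ t)) (hB t (mem_univ t)) k
  have e : BL (c' t) (d t) k + BL (c t) (d' t) k =
      ∑' j : ℤ, ker j (k - j) * (c' t j * d t (k - j) + c t j * d' t (k - j)) := by
    unfold BL
    rw [← hs1.tsum_add hs2]
    congr 1
    funext j
    ring
  rw [e]
  have hu : Summable fun j : ℤ => A' * B * (wt 2 j)⁻¹ + A * B' * (wt 2 j)⁻¹ :=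
    (summable_inv_wt_two.mul_left _).add (summable_inv_wt_two.mul_left _)
  refine hasDerivAt_tsum (g := fun (j : ℤ) (r : ℝ) => ker j (k - j) * (c r j * d r (k - j)))
    (g' := fun (j : ℤ) (r : ℝ) => ker j (k - j) * (c' r j * d r (k - j) + c r j * d' r (k - j)))
    (y₀ := t) hu ?_ ?_ hs0 t
  · intro j r
    exact ((h1 r j).mul (h2 r (k - j))).const_mul (ker j (k - j))
  · intro j r
    have i1 := trBL_term c' d A' B hA' hB r k j
    have i2 := trBL_term c d' A B' hA hB' r k j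
    have i3 : ker j (k - j) * (c' r j * d r (k - j) + c r j * d' r (k - j)) =
      ker j (k - j) * (c' r j * d r (k - j)) + ker j (k - j) * (c r j * d' r (k - j)) := by ring
    simp only [i3]
    exact (norm_add_le _ _).trans (add_le_add i1 i2)

private lemma trBL_urap {c d : ℝ → ℤ → ℂ} (hc : URap univ c) (hd : URap univ d) :
    URap univ fun t k => DGL.BL (c t) (d t) k := by
  intro s
  obtain ⟨A, hA⟩ := hc (s + 2)
  obtain ⟨B, hB⟩ := hd (s + 1)
  exact ⟨4 * A * B, fun t ht k => BL_bound s (c t) (d t) A B (hA t ht) (hB t ht) k⟩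

private lemma trBL_cont {c d : ℝ → ℤ → ℂ} (hc : URap univ c) (hd : URap univ d)
    (hcc : ∀ k, Continuous fun t => c t k) (hdc : ∀ k, Continuous fun t => d t k) (k : ℤ) :
    Continuous fun t => DGL.BL (c t) (d t) k := by
  obtain ⟨A, hA⟩ := hc 2
  obtain ⟨B, hB⟩ := hd 1
  unfold DGL.BL
  refine continuous_tsum (u := fun j : ℤ => A * B * (wt 2 j)⁻¹) ?_
    (summable_inv_wt_two.mul_left _) ?_
  · intro j
    exact continuous_const.mul ((hcc j).mul (hdc (k - j)))
  · intro j t
    exact trBL_term c d A B hA hB t k j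

theorem DD.BL {m : ℕ} {c d : ℝ → ℤ → ℂ} (hc : DD m c) (hd : DD m d) :
    DD m fun t k => DGL.BL (c t) (d t) k := by
  induction m generalizing c d with
  | zero => exact ⟨trBL_urap hc.urap hd.urap, trBL_cont hc.urap hd.urap hc.cont hd.cont⟩
  | succ m ih =>
    have hcm := DD.mono hc
    have hdm := DD.mono hd
    obtain ⟨hu, c', hc', hcd⟩ := hc
    obtain ⟨hv, d', hd', hdd⟩ := hd
    exact ⟨trBL_urap hu hv, fun t k => DGL.BL (c' t) (d t) k + DGL.BL (c t) (d' t) k,
      fun t k => BL_hasDerivAt c d c' d' hu hv hcd.urap hdd.urap hc' hd' t k,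
      DD.add (ih hcd hdm) (ih hcm hdd)⟩

end Pool.Agent.H45.DGL
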