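import Pool.Agent.H45.DGL.Smooth
import Pool.Agent.H45.DGL.HTseries
import Pool.Agent.H45.DGL.ConvId
import Pool.Agent.H45.DGL.Parseval

/-! JOB DL-16 (uses the stubs of the imported files).  Fourier-mild solutions are smooth solutions
in the sense of `Pool.Agent.H51.DG.Sol`.

PROOF.  `W a (t,x) = (FS (a t) x).re`, `V a (t,x) = (FS (vel (a t)) x).re`.
`pack`: for `t0 ∈ Ioo α β` take `α < α' < t0 < β' < β` and `c, c'` from `FSol.extend`.
* `(t,x) ↦ FS (c t) x` is `ContDiff ℝ m` for all `m` (`contDiff_FS`), hence `ContDiff ℝ ∞`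
  (`contDiff_infty`), real part: `Complex.reCLM.contDiff.comp`; for the velocity use
  `DD.mult` with `p k = -1/|k|`, `K = 1`, `r = 0` (`vel (c t) k = p k * c t k`, also for `k = 0`).
* `a t = c t` for `t ∈ Icc α' β'`, a neighbourhood of `t0`: `ContDiffAt` is local
  (`ContDiffAt.congr_of_eventuallyEq`), so `ContDiffOn` on the open strip.
* PDE at `(t,x)`, `t ∈ Ioo α' β'`: `deriv (fun s => (FS (a s) x).re) t = (FS (c' t) x).re`
  (`FS_hasDerivAt_t`, `Filter.EventuallyEq.deriv_eq`), `c' t = NL (c t) = NL (a t)`, and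
  `FS_NL`: take real parts, using `FS_herm` (all four series are real):
  `Re FS(NL a) = Re(FS a) Re(FS (dx (vel a))) - Re(FS (vel a)) Re (FS (dx a))`;
  `deriv_re_FS` for the two `x`-derivatives.
* `hu`: `deriv V = Re FS (dx (vel a)) = Re FS (hil a)` (`dx_vel`) `= HT (W a (t,·))` (`HT_FS`).
* `mu`: `int_FS` with `m = 0` (`ex 0 x = 1`), `vel c 0 = 0`; real parts
  (`intervalIntegral` of the real part: `FS_herm` and `intervalIntegral.integral_ofReal`).
* periodicity: `FS_per`. -/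

set_option autoImplicit false
open Real Set MeasureTheory

namespace Pool.Agent.H45.DGL

/-- vorticity in physical space -/
noncomputable def W (a : ℝ → ℤ → ℂ) (p : ℝ × ℝ) : ℝ := (FS (a p.1) p.2).re

/-- velocity in physical space -/
noncomputable def V (a : ℝ → ℤ → ℂ) (p : ℝ × ℝ) : ℝ := (FS (vel (a p.1)) p.2).re

/-- the multiplier of the velocity -/
private noncomputable def ToSol_p (k : ℤ) : ℂ := -1 / ((|(k : ℝ)| : ℝ) : ℂ)

private lemma ToSol_p_le (k : ℤ) : ‖ToSol_p k‖ ≤ 1 * wt 0 k := by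
  unfold ToSol_p wt
  rw [pow_zero, mul_one, norm_div, norm_neg, norm_one, Complex.norm_real, Real.norm_eq_abs,
    abs_abs]
  rcases eq_or_ne k 0 with h | h
  · rw [h]
    simp
  · have h1 : (1 : ℝ) ≤ |(k : ℝ)| := by
      have : (1 : ℤ) ≤ |k| := Int.one_le_abs h
      exact_mod_cast this
    rw [div_le_one (by linarith)]
    exact h1

private lemma ToSol_vel (c : ℤ → ℂ) : (fun k => ToSol_p k * c k) = vel c := by
  funext k
  unfold ToSol_p vel
  rw [neg_div, neg_div, neg_mul, one_div, div_eq_mul_inv, mul_comm]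

private lemma ToSol_rap {c : ℝ → ℤ → ℂ} {S : Set ℝ} (hc : URap S c) {t : ℝ} (ht : t ∈ S) :
    Rap (c t) := by
  intro s
  obtain ⟨C, hC⟩ := hc s
  exact ⟨C, fun k => hC t ht k⟩

/-- JOB DL-16: smoothness of `W c`, `V c` for `c ∈ ∩ DD m` -/
lemma W_contDiff (c : ℝ → ℤ → ℂ) (h : ∀ m, DD m c) :
    ContDiff ℝ ((⊤ : ℕ∞) : WithTop ℕ∞) (W c) ∧ ContDiff ℝ ((⊤ : ℕ∞) : WithTop ℕ∞) (V c) := by
  have hre : ∀ d : ℝ → ℤ → ℂ, (∀ m, DD m d) →
      ContDiff ℝ ((⊤ : ℕ∞) : WithTop ℕ∞) (fun p : ℝ × ℝ => (FS (d p.1) p.2).re) := by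
    intro d hd
    have h1 : ContDiff ℝ ((⊤ : ℕ∞) : WithTop ℕ∞) fun p : ℝ × ℝ => FS (d p.1) p.2 :=
      contDiff_infty.2 fun n => contDiff_FS (hd n)
    exact Complex.reCLM.contDiff.comp h1
  refine ⟨hre c h, ?_⟩
  have hv : ∀ m, DD m (fun t k => ToSol_p k * c t k) := fun m =>
    (h m).mult ToSol_p 1 0 ToSol_p_le
  have h2 := hre _ hv
  have h3 : (fun p : ℝ × ℝ => (FS ((fun t k => ToSol_p k * c t k) p.1) p.2).re) = V c := by
    funext p
    show (FS (fun k => ToSol_p k * c p.1 k) p.2).re = (FS (vel (c p.1)) p.2).re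
    rw [ToSol_vel]
  rw [h3] at h2
  exact h2

/-- the equation at one time -/
lemma pde_at (c c' : ℝ → ℤ → ℂ) (hc : URap univ c) (hh : ∀ t, Herm (c t)) (hc' : URap univ c')
    (h1 : ∀ t k, HasDerivAt (fun r => c r k) (c' t k) t) (t : ℝ)
    (ht : ∀ k, c' t k = NL (c t) k) (x : ℝ) :
    deriv (fun s : ℝ => W c (s, x)) t + V c (t, x) * deriv (fun y : ℝ => W c (t, y)) x =
      W c (t, x) * deriv (fun y : ℝ => V c (t, y)) x := by
  have hr : Rap (c t) := ToSol_rap hc (mem_univ t)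
  have e1 : deriv (fun s : ℝ => W c (s, x)) t = (FS (c' t) x).re :=
    (Complex.reCLM.hasFDerivAt.comp_hasDerivAt t (FS_hasDerivAt_t c c' hc hc' h1 t x)).deriv
  have e2 : deriv (fun y : ℝ => W c (t, y)) x = (FS (dx (c t)) x).re :=
    (deriv_re_FS (c t) hr x).deriv
  have e3 : deriv (fun y : ℝ => V c (t, y)) x = (FS (dx (vel (c t))) x).re :=
    (deriv_re_FS (vel (c t)) (Rap_vel _ hr) x).deriv
  have e4 : c' t = NL (c t) := funext ht
  rw [e1, e2, e3, e4, FS_NL (c t) hr x]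
  show _ + (FS (vel (c t)) x).re * _ = (FS (c t) x).re * _
  have r1 := FS_herm _ (hh t) x
  have r2 := FS_herm _ (Herm_vel _ (hh t)) x
  have r3 := FS_herm _ (Herm_dx _ (hh t)) x
  have r4 := FS_herm _ (Herm_dx _ (Herm_vel _ (hh t))) x
  have i1 : (FS (c t) x).im = 0 := by rw [← r1]; exact Complex.ofReal_im _
  have i2 : (FS (vel (c t)) x).im = 0 := by rw [← r2]; exact Complex.ofReal_im _
  rw [Complex.sub_re, Complex.mul_re, Complex.mul_re, i1, i2]
  ring

/-- the velocity gradient is the Hilbert transform of the vorticity, and mean zero velocity -/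
lemma hilb_at (c : ℝ → ℤ → ℂ) (t : ℝ) (hc : Rap (c t)) (hh : Herm (c t)) :
    (∀ x, deriv (fun y : ℝ => V c (t, y)) x =
      Pool.Agent.H51.DG.HT (fun y : ℝ => W c (t, y)) x) ∧
      ∫ x in (0:ℝ)..(2 * π), V c (t, x) = 0 := by
  constructor
  · intro x
    have e3 : deriv (fun y : ℝ => V c (t, y)) x = (FS (dx (vel (c t))) x).re :=
      (deriv_re_FS (vel (c t)) (Rap_vel _ hc) x).deriv
    have e4 := HT_FS (c t) hc hh x
    rw [e3, dx_vel, ← e4, Complex.ofReal_re]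
    rfl
  · have h1 := int_FS (vel (c t)) (Rap_vel _ hc) 0
    have h2 : vel (c t) 0 = 0 := by simp [vel]
    have h3 : ∀ x : ℝ, FS (vel (c t)) x * ex (-0) x = ((V c (t, x) : ℝ) : ℂ) := by
      intro x
      have : ex (-0) x = 1 := by simp [ex]
      rw [this, mul_one]
      exact (FS_herm _ (Herm_vel _ hh) x).symm
    rw [h2, mul_zero] at h1
    simp only [h3] at h1
    rw [intervalIntegral.integral_ofReal] at h1
    exact_mod_cast h1

private lemma ToSol_loc {a : ℝ → ℤ → ℂ} {α β : ℝ} (h : FSol a α β) {t0 : ℝ}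
    (ht : t0 ∈ Ioo α β) : ∃ α' β' : ℝ, α < α' ∧ α' < t0 ∧ t0 < β' ∧ β' < β ∧
    ∃ c : ℝ → ℤ → ℂ, (∀ m, DD m c) ∧ (∀ t, Herm (c t)) ∧ (∀ t ∈ Icc α' β', c t = a t) ∧
      (∃ c' : ℝ → ℤ → ℂ, URap univ c' ∧ (∀ t k, HasDerivAt (fun r => c r k) (c' t k) t) ∧
        ∀ t ∈ Icc α' β', ∀ k, c' t k = NL (c t) k) := by
  obtain ⟨h1, h2⟩ := ht
  refine ⟨(α + t0) / 2, (t0 + β) / 2, by linarith, by linarith, by linarith, by linarith, ?_⟩
  exact h.extend _ _ (by linarith) (by linarith) (by linarith)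

theorem FSol.toSol {a : ℝ → ℤ → ℂ} {α β : ℝ} (h : FSol a α β) :
    Pool.Agent.H51.DG.Sol α β (W a) (V a) := by
  have hsub : ∀ {t : ℝ}, t ∈ Ioo α β → t ∈ Icc α β := fun ht => Ioo_subset_Icc_self ht
  have hW : ∀ p ∈ Ioo α β ×ˢ (univ : Set ℝ),
      ContDiffWithinAt ℝ ((⊤ : ℕ∞) : WithTop ℕ∞) (W a) (Ioo α β ×ˢ (univ : Set ℝ)) p ∧
      ContDiffWithinAt ℝ ((⊤ : ℕ∞) : WithTop ℕ∞) (V a) (Ioo α β ×ˢ (univ : Set ℝ)) p := by
    rintro p ⟨hp, -⟩
    obtain ⟨α', β', g1, g2, g3, g4, c, k1, -, k3, -⟩ := ToSol_loc h hp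
    have hn : ∀ᶠ q : ℝ × ℝ in nhds p, q.1 ∈ Ioo α' β' :=
      continuous_fst.continuousAt.eventually (Ioo_mem_nhds g2 g3)
    obtain ⟨w1, w2⟩ := W_contDiff c k1
    constructor
    · refine (w1.contDiffAt.congr_of_eventuallyEq ?_).contDiffWithinAt
      filter_upwards [hn] with q hq
      show (FS (a q.1) q.2).re = (FS (c q.1) q.2).re
      rw [k3 q.1 (Ioo_subset_Icc_self hq)]
    · refine (w2.contDiffAt.congr_of_eventuallyEq ?_).contDiffWithinAt
      filter_upwards [hn] with q hq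
      show (FS (vel (a q.1)) q.2).re = (FS (vel (c q.1)) q.2).re
      rw [k3 q.1 (Ioo_subset_Icc_self hq)]
  refine
    { sw := fun p hp => (hW p hp).1
      su := fun p hp => (hW p hp).2
      pw := ?_
      pu := ?_
      hu := ?_
      mu := ?_
      pde := ?_ }
  · intro t _ x
    show (FS (a t) (x + 2 * π)).re = (FS (a t) x).re
    rw [FS_per]
  · intro t _ x
    show (FS (vel (a t)) (x + 2 * π)).re = (FS (vel (a t)) x).re
    rw [FS_per]
  · intro t ht x
    exact (hilb_at a t (ToSol_rap h.rap (hsub ht)) (h.herm t (hsub ht))).1 x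
  · intro t ht
    exact (hilb_at a t (ToSol_rap h.rap (hsub ht)) (h.herm t (hsub ht))).2
  · intro t ht x
    obtain ⟨α', β', g1, g2, g3, g4, c, k1, k2, k3, c', k4, k5, k6⟩ := ToSol_loc h ht
    have hmem : t ∈ Icc α' β' := ⟨g2.le, g3.le⟩
    have key := pde_at c c' (k1 0).urap k2 k4 k5 t (k6 t hmem) x
    have e1 : deriv (fun s : ℝ => W a (s, x)) t = deriv (fun s : ℝ => W c (s, x)) t := by
      apply Filter.EventuallyEq.deriv_eq
      filter_upwards [Ioo_mem_nhds g2 g3] with s hs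
      show (FS (a s) x).re = (FS (c s) x).re
      rw [k3 s (Ioo_subset_Icc_self hs)]
    have e2 : ∀ y, W a (t, y) = W c (t, y) := by
      intro y
      show (FS (a t) y).re = (FS (c t) y).re
      rw [k3 t hmem]
    have e3 : ∀ y, V a (t, y) = V c (t, y) := by
      intro y
      show (FS (vel (a t)) y).re = (FS (vel (c t)) y).re
      rw [k3 t hmem]
    rw [e1]
    simp only [e2, e3]
    exact key

end Pool.Agent.H45.DGL
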