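import Pool.Agent.H45.DGL.Basic

/-! Elementary inequalities for the weights `wt s k = (1+|k|)^s` and the kernel `ker`. -/

set_option autoImplicit false
open Real Set

namespace Pool.Agent.H45.DGL

lemma wt_pos (s : ℕ) (k : ℤ) : 0 < wt s k := by unfold wt; positivity

lemma one_le_wt (s : ℕ) (k : ℤ) : 1 ≤ wt s k := by
  unfold wt
  exact one_le_pow₀ (by linarith [abs_nonneg (k : ℝ)])

lemma wt_zero_left (k : ℤ) : wt 0 k = 1 := by simp [wt]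

lemma wt_one (k : ℤ) : wt 1 k = 1 + |(k : ℝ)| := by simp [wt]

lemma wt_add_left (s r : ℕ) (k : ℤ) : wt (s + r) k = wt s k * wt r k := by
  unfold wt; exact pow_add _ _ _

lemma wt_mono {s r : ℕ} (h : s ≤ r) (k : ℤ) : wt s k ≤ wt r k := by
  unfold wt
  exact pow_le_pow_right₀ (by linarith [abs_nonneg (k : ℝ)]) h

lemma wt_neg (s : ℕ) (k : ℤ) : wt s (-k) = wt s k := by
  unfold wt; simp

lemma wt_add_le_mul (s : ℕ) (j l : ℤ) : wt s (j + l) ≤ wt s j * wt s l := by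
  unfold wt
  rw [← mul_pow]
  refine pow_le_pow_left₀ (by positivity) ?_ _
  push_cast
  nlinarith [abs_add_le (j : ℝ) (l : ℝ), abs_nonneg (j : ℝ), abs_nonneg (l : ℝ),
    mul_nonneg (abs_nonneg (j : ℝ)) (abs_nonneg (l : ℝ))]

lemma wt_sub_le_mul (s : ℕ) (k j : ℤ) : wt s (k - j) ≤ wt s k * wt s j := by
  have h := wt_add_le_mul s k (-j)
  rwa [wt_neg, ← sub_eq_add_neg] at h

lemma pow_sum_le (s : ℕ) (x y : ℝ) (hx : 0 ≤ x) (hy : 0 ≤ y) :
    (x + y) ^ s ≤ 2 ^ s * (x ^ s + y ^ s) := by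
  rcases le_total x y with h | h
  · calc (x + y) ^ s ≤ (2 * y) ^ s := pow_le_pow_left₀ (by positivity) (by linarith) _
      _ = 2 ^ s * y ^ s := mul_pow _ _ _
      _ ≤ 2 ^ s * (x ^ s + y ^ s) := by
        have : (0 : ℝ) ≤ x ^ s := by positivity
        gcongr; linarith
  · calc (x + y) ^ s ≤ (2 * x) ^ s := pow_le_pow_left₀ (by positivity) (by linarith) _
      _ = 2 ^ s * x ^ s := mul_pow _ _ _
      _ ≤ 2 ^ s * (x ^ s + y ^ s) := by
        have : (0 : ℝ) ≤ y ^ s := by positivity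
        gcongr; linarith

lemma wt_add_le (s : ℕ) (j l : ℤ) : wt s (j + l) ≤ 2 ^ s * (wt s j + wt s l) := by
  refine le_trans ?_ (pow_sum_le s (1 + |(j : ℝ)|) (1 + |(l : ℝ)|) (by positivity) (by positivity))
  unfold wt
  refine pow_le_pow_left₀ (by positivity) ?_ _
  push_cast
  linarith [abs_add_le (j : ℝ) (l : ℝ)]

/-- the commutator inequality -/
lemma wt_comm (s : ℕ) (j l : ℤ) :
    |(l : ℝ)| * |wt s (j + l) - wt s l| ≤ s * 2 ^ s * |(j : ℝ)| * (wt s j + wt s l) := by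
  rcases Nat.eq_zero_or_pos s with rfl | hs
  · simp [wt]
  have h1 := abs_pow_sub_pow_le (1 + |((j + l : ℤ) : ℝ)|) (1 + |(l : ℝ)|) s
  have hj : |(1 + |((j + l : ℤ) : ℝ)|) - (1 + |(l : ℝ)|)| ≤ |(j : ℝ)| := by
    have := abs_abs_sub_abs_le_abs_sub (((j + l : ℤ) : ℝ)) (l : ℝ)
    push_cast at this ⊢
    have e : (1 + |(j : ℝ) + l|) - (1 + |(l : ℝ)|) = |(j : ℝ) + l| - |(l : ℝ)| := by ring
    rw [e]
    refine this.trans ?_
    simp
  have hm : max |(1 + |((j + l : ℤ) : ℝ)|)| |(1 + |(l : ℝ)|)| ≤ 1 + |(j : ℝ)| + |(l : ℝ)| := by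
    have p1 : (0 : ℝ) ≤ 1 + |((j + l : ℤ) : ℝ)| := by positivity
    have p2 : (0 : ℝ) ≤ 1 + |(l : ℝ)| := by positivity
    rw [abs_of_nonneg p1, abs_of_nonneg p2]
    push_cast
    refine max_le (by linarith [abs_add_le (j : ℝ) (l : ℝ)]) (by linarith [abs_nonneg (j : ℝ)])
  have hS : (1 + |(j : ℝ)| + |(l : ℝ)|) ^ s ≤ 2 ^ s * (wt s j + wt s l) := by
    refine le_trans ?_ (pow_sum_le s (1 + |(j : ℝ)|) (1 + |(l : ℝ)|) (by positivity) (by positivity))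
    exact pow_le_pow_left₀ (by positivity) (by linarith) _
  have hl : |(l : ℝ)| ≤ 1 + |(j : ℝ)| + |(l : ℝ)| := by linarith [abs_nonneg (j : ℝ)]
  unfold wt at *
  calc |(l : ℝ)| * |(1 + |((j + l : ℤ) : ℝ)|) ^ s - (1 + |(l : ℝ)|) ^ s|
      ≤ |(l : ℝ)| * (|(1 + |((j + l : ℤ) : ℝ)|) - (1 + |(l : ℝ)|)| * s *
          max |(1 + |((j + l : ℤ) : ℝ)|)| |(1 + |(l : ℝ)|)| ^ (s - 1)) := by gcongr
    _ ≤ (1 + |(j : ℝ)| + |(l : ℝ)|) * (|(j : ℝ)| * s * (1 + |(j : ℝ)| + |(l : ℝ)|) ^ (s - 1)) := by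
        gcongr
    _ = s * |(j : ℝ)| * (1 + |(j : ℝ)| + |(l : ℝ)|) ^ s := by
        obtain ⟨r, rfl⟩ : ∃ r, s = r + 1 := ⟨s - 1, by omega⟩
        simp only [Nat.add_sub_cancel]
        ring
    _ ≤ s * |(j : ℝ)| * (2 ^ s * ((1 + |(j : ℝ)|) ^ s + (1 + |(l : ℝ)|) ^ s)) := by gcongr
    _ = s * 2 ^ s * |(j : ℝ)| * ((1 + |(j : ℝ)|) ^ s + (1 + |(l : ℝ)|) ^ s) := by ring

lemma norm_ker_le (j l : ℤ) : ‖ker j l‖ ≤ wt 1 l := by
  unfold ker
  rw [wt_one]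
  by_cases hj : j = 0
  · subst hj; simp; positivity
  have h1 : (1 : ℝ) ≤ |(j : ℝ)| := by
    have := Int.one_le_abs hj
    exact_mod_cast this
  rw [norm_div, norm_mul, norm_neg, Complex.norm_I, one_mul, Complex.norm_real,
    Real.norm_eq_abs, abs_abs, div_le_iff₀ (by linarith)]
  have h2 : ‖(j : ℂ) - (l : ℂ)‖ ≤ |(j : ℝ)| + |(l : ℝ)| := by
    refine (norm_sub_le _ _).trans ?_
    simp
  nlinarith [abs_nonneg (l : ℝ)]

lemma ker_neg (j l : ℤ) : ker (-j) (-l) = (starRingEnd ℂ) (ker j l) := by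
  unfold ker
  simp only [map_div₀, map_mul, map_neg, Complex.conj_I, map_sub, Complex.conj_ofReal]
  have e1 : (starRingEnd ℂ) (j : ℂ) = (j : ℂ) := by
    rw [← Complex.ofReal_intCast, Complex.conj_ofReal]
  have e2 : (starRingEnd ℂ) (l : ℂ) = (l : ℂ) := by
    rw [← Complex.ofReal_intCast, Complex.conj_ofReal]
  rw [e1, e2]
  push_cast
  simp only [abs_neg]
  ring

/-- splitting of `ker j l * z` used in the energy inequality -/
lemma ker_eq (j l : ℤ) : ker j l =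
    -Complex.I * ((j : ℂ) / ((|(j : ℝ)| : ℝ) : ℂ)) +
      Complex.I * (l : ℂ) * (1 / ((|(j : ℝ)| : ℝ) : ℂ)) := by
  unfold ker; ring

lemma hasSum_aux : HasSum (fun n : ℕ => (wt 2 ((n : ℕ) : ℤ))⁻¹) (π ^ 2 / 6) := by
  have h := hasSum_zeta_two
  have h2 := (hasSum_nat_add_iff' (f := fun n : ℕ => 1 / (n : ℝ) ^ 2) 1).mpr h
  simp at h2
  refine h2.congr_fun ?_ |> fun h3 => h3
  intro n
  unfold wt
  simp [add_comm]

lemma summable_inv_wt_two : Summable fun k : ℤ => (wt 2 k)⁻¹ := by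
  refine Summable.of_nat_of_neg hasSum_aux.summable ?_
  simpa [wt_neg] using hasSum_aux.summable

lemma tsum_inv_wt_two_le : ∑' k : ℤ, (wt 2 k)⁻¹ ≤ 4 := by
  have h1 := hasSum_aux
  have h2 : HasSum (fun n : ℕ => (wt 2 (-((n : ℕ) + 1 : ℤ)))⁻¹) (π ^ 2 / 6 - 1) := by
    have h := (hasSum_nat_add_iff' (f := fun n : ℕ => (wt 2 ((n : ℕ) : ℤ))⁻¹) 1).mpr h1
    simp only [Finset.range_one, Finset.sum_singleton] at h
    have e : (wt 2 ((0 : ℕ) : ℤ))⁻¹ = 1 := by simp [wt]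
    rw [e] at h
    simp only [wt_neg]
    simpa using h
  rw [(HasSum.of_nat_of_neg_add_one h1 h2).tsum_eq]
  nlinarith [Real.pi_lt_d2, Real.pi_pos]

end Pool.Agent.H45.DGL
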